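import Pool.Agent.WS.St
import Pool.Agent.WD.Core

/-!
# WS: the bound for one network

Theorem `thm_COR (hLift : St_Lift) (hRkM : St_RkM) : St_COR`.
-/

set_option autoImplicit false

namespace Pool.Agent.WS

open Finset Pool.Agent.WD
open scoped NNReal

private theorem COR_rankLe_smul {D V : Type} [Fintype D] [DecidableEq D] [Fintype V]
    [DecidableEq V] {W : ℕ} {T : (V → D) → ℝ≥0} {S : Finset V} (c : ℝ≥0) (h : RankLe W T S) :
    RankLe W (fun x => c * T x) S := by
  obtain ⟨u, v, hu, hv, huv⟩ := h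
  refine ⟨fun i x => c * u i x, v, ?_, hv, ?_⟩
  · intro i x y hxy
    show (c : ℝ) * u i x = c * u i y
    rw [hu i x y hxy]
  · intro x
    show ((c * T x : ℝ≥0) : ℝ) = _
    rw [NNReal.coe_mul, huv, Finset.mul_sum]
    refine Finset.sum_congr rfl fun i _ => ?_
    ring

/-- [COR] The bound for one network. -/
theorem thm_COR (hLift : Pool.Agent.WD.St_Lift) (hRkM : Pool.Agent.WD.St_RkM) : St_COR := by
  classical
  intro D V K _ _ _ _ _ _ E M col Δ v₀ η Kc Q hE hη0 hη1 hKc hQ hN k hJ κ base R hR g hw ι _ T S W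
    q hq hsum hT
  have hq0 : q ≠ 0 := by
    intro h; rw [h] at hq; exact absurd hq (by norm_num)
  set Tb : ι → (K → D) → ℝ≥0 := fun t z => marg R (T t) (Function.extend κ z base) with hTb
  have hfs : ∀ z, net E M z ≤ q * ∑ t, Tb t z := by
    intro z
    rw [← hw z]
    simp only [hTb]
    rw [← marg_sum, ← marg_smul]
    exact marg_mono hsum _
  have hKW : (0 : ℝ) ≤ Kc * (W + 1) := by positivity
  -- one term
  have hterm : ∀ t, ((∑ x ∈ Q, q⁻¹ * Tb t x : ℝ≥0) : ℝ) ≤
      (Kc * (W + 1) * (1 - η) ^ k) * ((∑ x ∈ Q, net E M x : ℝ≥0) : ℝ) := by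
    intro t
    obtain ⟨hTle, hS1, hS2, hbr⟩ := hT t
    set Sb : Finset K := univ.filter fun k => κ k ∈ S t with hSb
    have hSc : (S t ∩ univ.map κ).card = Sb.card := by
      rw [← card_map κ (s := Sb)]
      congr 1
      ext v
      simp only [mem_inter, mem_map, mem_univ, true_and, hSb, mem_filter]
      constructor
      · rintro ⟨hv, k, rfl⟩; exact ⟨k, hv, rfl⟩
      · rintro ⟨k, hk, rfl⟩; exact ⟨hk, k, rfl⟩
    rw [hSc, card_map, card_univ] at hS1 hS2
    obtain ⟨J, hJ0, hJ1, hJ2, hJ3, hJ4⟩ := hJ Sb hS1 hS2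
    have hle : ∀ x, q⁻¹ * Tb t x ≤ net E M x := by
      intro x
      have h4 : Tb t x ≤ q * net E M x := by
        rw [← hw x]
        simp only [hTb]
        rw [← marg_smul]
        exact marg_mono hTle _
      calc q⁻¹ * Tb t x ≤ q⁻¹ * (q * net E M x) := by
            gcongr
        _ = net E M x := by rw [← mul_assoc, inv_mul_cancel₀ hq0, one_mul]
    have hpair : (∀ e ∈ J, PairB (fun x => q⁻¹ * Tb t x) e.1 e.2) ∨
        RankLe W (fun x => q⁻¹ * Tb t x) Sb := by
      rcases hbr with hbr | hbr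
      · left
        intro e he
        apply pairB_smul
        have hne : e.1 ≠ e.2 := by
          intro h
          obtain ⟨c1, c2⟩ := hE.bip e (hJ1.1 he)
          rw [h, c2] at c1
          exact absurd c1 (by simp)
        rcases hJ4 e he with ⟨ha, hb⟩ | ⟨ha, hb⟩
        · have ha' : κ e.1 ∈ S t := by simpa [hSb] using ha
          have hb' : κ e.2 ∉ S t := by simpa [hSb] using hb
          exact core_pair hLift κ base R hR (hbr _ ha' _ hb')
        · have ha' : κ e.1 ∉ S t := by simpa [hSb] using ha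
          have hb' : κ e.2 ∈ S t := by simpa [hSb] using hb
          exact core_pair hLift κ base R hR
            (pairB_symm (fun h => hne (κ.injective h.symm)) (hbr _ hb' _ ha'))
      · right
        exact COR_rankLe_smul _ (hRkM D V K κ base R (T t) (S t) W hbr)
    have h5 := hN J hJ0 hJ1 hJ2 Sb hJ4 _ W hle hpair
    refine h5.trans ?_
    apply mul_le_mul_of_nonneg_right _ (NNReal.coe_nonneg _)
    apply mul_le_mul_of_nonneg_left _ hKW
    exact pow_le_pow_of_le_one (by linarith) (by linarith) hJ3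
  -- sum over the terms
  have hQr : (0 : ℝ) < ((∑ x ∈ Q, net E M x : ℝ≥0) : ℝ) := by exact_mod_cast hQ
  set A : ℝ := ((∑ x ∈ Q, net E M x : ℝ≥0) : ℝ) with hA
  set B : ℝ := Kc * (W + 1) * (1 - η) ^ k with hB
  have hB0 : 0 ≤ B := mul_nonneg hKW (pow_nonneg (by linarith) _)
  have hqr : (0 : ℝ) < q := by
    have : (0 : ℝ≥0) < q := pos_iff_ne_zero.2 hq0
    exact_mod_cast this
  have h7 : A ≤ q * (q * ∑ t, ((∑ x ∈ Q, q⁻¹ * Tb t x : ℝ≥0) : ℝ)) := by
    have h70 : ∑ x ∈ Q, net E M x ≤ q * (q * ∑ t, ∑ x ∈ Q, q⁻¹ * Tb t x) := by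
      refine (Finset.sum_le_sum fun x _ => hfs x).trans (le_of_eq ?_)
      rw [← Finset.mul_sum]
      congr 1
      rw [Finset.mul_sum, Finset.sum_comm]
      apply Finset.sum_congr rfl
      intro t _
      rw [Finset.mul_sum]
      apply Finset.sum_congr rfl
      intro x _
      rw [← mul_assoc, mul_inv_cancel₀ hq0, one_mul]
    rw [hA]
    exact_mod_cast h70
  have h8 : ∑ t, ((∑ x ∈ Q, q⁻¹ * Tb t x : ℝ≥0) : ℝ) ≤ (Fintype.card ι : ℝ) * (B * A) := by
    calc ∑ t, ((∑ x ∈ Q, q⁻¹ * Tb t x : ℝ≥0) : ℝ) ≤ ∑ _t : ι, B * A :=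
          Finset.sum_le_sum fun t _ => hterm t
      _ = (Fintype.card ι : ℝ) * (B * A) := by
          rw [Finset.sum_const, card_univ, nsmul_eq_mul]
  have h9 : A ≤ q ^ 2 * Fintype.card ι * B * A := by
    calc A ≤ q * (q * ∑ t, ((∑ x ∈ Q, q⁻¹ * Tb t x : ℝ≥0) : ℝ)) := h7
      _ ≤ q * (q * ((Fintype.card ι : ℝ) * (B * A))) := by gcongr
      _ = _ := by ring
  by_contra hcon
  push Not at hcon
  have : (q : ℝ) ^ 2 * Fintype.card ι * B * A < 1 * A := mul_lt_mul_of_pos_right hcon hQr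
  linarith

end Pool.Agent.WS
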