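import Pool.Agent.WS.St
import Pool.Agent.WE.Dec2

/-!
# [DEC] decomposition of a stable computation into places
-/

set_option autoImplicit false

namespace Pool.Agent.WS

open Finset Pool.Agent.WD
open scoped NNReal

section

variable {D V : Type} [Fintype D] [DecidableEq D] [Fintype V] [DecidableEq V]

omit [Fintype D] [DecidableEq D] [Fintype V] [DecidableEq V] in
theorem DEC_abs {g : (V → D) → ℝ} {U : Finset V}
    (h : ∀ x y, (∀ v ∈ U, x v = y v) → g x = g y) : DepOn (fun x => Real.nnabs (g x)) U :=
  fun x y hxy => by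
    show Real.nnabs (g x) = Real.nnabs (g y)
    rw [h x y hxy]

omit [Fintype D] [DecidableEq D] [Fintype V] [DecidableEq V] in
theorem DEC_prod {α : Type} {A : Finset α} {g : α → (V → D) → ℝ≥0} {U : Finset V}
    (hg : ∀ a ∈ A, DepOn (g a) U) : DepOn (fun x => ∏ a ∈ A, g a x) U := fun x y hxy =>
  Finset.prod_congr rfl fun a ha => hg a ha x y hxy

omit [Fintype V] in
/-- a subfamily of a family of small sets whose union is balanced, or the union is small -/
theorem DEC_split {s : ℕ} (S : Fin s → Finset V) (X : Finset V) (L : Finset (Fin s))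
    (h : ∀ j ∈ L, 3 * (S j ∩ X).card ≤ 2 * X.card) :
    (∃ t ⊆ L, X.card ≤ 3 * ((t.biUnion S) ∩ X).card ∧
      3 * ((t.biUnion S) ∩ X).card ≤ 2 * X.card) ∨
    3 * ((L.biUnion S) ∩ X).card < X.card ∨ X = ∅ := by
  classical
  induction L using Finset.induction_on with
  | empty =>
    by_cases hX : X = ∅
    · exact Or.inr (Or.inr hX)
    · right; left
      have : 0 < X.card := Finset.card_pos.2 (Finset.nonempty_of_ne_empty hX)
      simpa using this
  | insert j L hj ih =>
    rcases ih (fun k hk => h k (mem_insert_of_mem hk)) with ⟨t, ht, h1, h2⟩ | h1 | h1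
    · exact Or.inl ⟨t, ht.trans (subset_insert _ _), h1, h2⟩
    · have hj1 := h j (mem_insert_self _ _)
      have hsum : (((insert j L).biUnion S) ∩ X).card ≤
          (S j ∩ X).card + ((L.biUnion S) ∩ X).card := by
        rw [biUnion_insert, union_inter_distrib_right]
        exact card_union_le _ _
      by_cases h2 : X.card ≤ 3 * (S j ∩ X).card
      · refine Or.inl ⟨{j}, singleton_subset_iff.2 (mem_insert_self _ _), ?_, ?_⟩
        · rw [singleton_biUnion]; exact h2
        · rw [singleton_biUnion]; exact hj1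
      · by_cases h3 : X.card ≤ 3 * (((insert j L).biUnion S) ∩ X).card
        · exact Or.inl ⟨insert j L, Subset.rfl, h3, by omega⟩
        · exact Or.inr (Or.inl (by omega))
    · exact Or.inr (Or.inr h1)

variable {X : Finset V} {W s : ℕ}

/-- the number of the places -/
theorem DEC_card (P : Circuit D X W s) [Fintype {p // P.Place p}] :
    Fintype.card {p // P.Place p} ≤ P.size := by
  classical
  let F : {p // P.Place p} → Fin s ⊕ (Σ i : Fin s, {j // j ∈ P.L i}) := fun p =>
    match hp : p.1.2 with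
    | none => Sum.inl p.1.1
    | some j => Sum.inr ⟨p.1.1, ⟨j, (p.2.2.2 j hp).2.1⟩⟩
  have hF : Function.Injective F := by
    rintro ⟨⟨i, o⟩, hp⟩ ⟨⟨i', o'⟩, hp'⟩ h
    rcases o with _ | j <;> rcases o' with _ | j'
    · have h' : (Sum.inl i : Fin s ⊕ (Σ i : Fin s, {j // j ∈ P.L i})) = Sum.inl i' := h
      rw [Sum.inl.injEq] at h'
      subst h'
      rfl
    · exact absurd h (by simp [F])
    · exact absurd h (by simp [F])
    · have h' : (Sum.inr ⟨i, ⟨j, (hp.2.2 j rfl).2.1⟩⟩ :
          Fin s ⊕ (Σ i : Fin s, {j // j ∈ P.L i})) = Sum.inr ⟨i', ⟨j', (hp'.2.2 j' rfl).2.1⟩⟩ := h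
      rw [Sum.inr.injEq, Sigma.mk.injEq] at h'
      obtain ⟨h1, h2⟩ := h'
      subst h1
      have h3 := eq_of_heq h2
      have h4 : j = j' := congrArg Subtype.val h3
      subst h4
      rfl
  refine (Fintype.card_le_of_injective F hF).trans (le_of_eq ?_)
  rw [Fintype.card_sum, Fintype.card_sigma, Fintype.card_fin]
  unfold Circuit.size
  congr 1
  exact Finset.sum_congr rfl fun i _ => Fintype.card_coe _

/-- one place -/
theorem DEC_place (hBro : St_Bro) (P : Circuit D X W s) (hX : 2 ≤ X.card)
    (p : Fin s × Option (Fin s)) (hp : P.Place p) (b : (V → D) → ℝ≥0)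
    (hb : DepOn b (P.S p.1)ᶜ) :
    ∃ S : Finset V, X.card ≤ 3 * (S ∩ X).card ∧ 3 * (S ∩ X).card ≤ 2 * X.card ∧
      (Broken (fun x => Real.nnabs (lost P x p) * b x) S ∨
        RankLe W (fun x => Real.nnabs (lost P x p) * b x) S) := by
  classical
  obtain ⟨i, o⟩ := p
  obtain ⟨hL, hnone, hsome⟩ := hp
  dsimp only at hL hnone hsome hb
  have hL' : 2 * X.card < 3 * (P.S i ∩ X).card := hL
  rcases o with _ | j
  · rcases hnone rfl with hk | ⟨hk, hsm⟩
    · obtain ⟨g, hg, hfg⟩ := P.leaf i hL' hk
      have hT : (fun x => Real.nnabs (lost P x (i, none)) * b x) = fun x => g x * b x := by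
        funext x
        congr 1
        show Real.nnabs (P.f i x) = g x
        rw [hfg x]
        exact NNReal.coe_injective (by rw [Real.coe_nnabs, NNReal.abs_eq])
      rw [hT]
      have hdep : DepOn g (P.S i) := fun x y hxy => by
        have := P.dep i x y hxy
        rw [hfg, hfg] at this
        exact NNReal.coe_injective this
      rcases hg with hg | ⟨A, hA, hS1, hS2, hr⟩
      · obtain ⟨S, _, hSU, hS1, hS2⟩ := dec_between (empty_subset (P.S i)) (by simp) hL' hX
        exact ⟨S, hS1, hS2, Or.inl ((hBro D V g b S (P.S i)).2 hg hdep hb hSU)⟩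
      · refine ⟨A, hS1, hS2, Or.inr ?_⟩
        have h1 := dec2_rank hdep hb (hr : RankLe W g A)
        rw [inter_eq_left.2 hA] at h1
        exact h1
    · -- a product of gates which are not large
      have key : ∃ (t : Finset (Fin s)) (S : Finset V), t ⊆ P.L i ∧ (∀ j ∈ t, P.S j ⊆ S) ∧
          (∀ j ∈ P.L i \ t, Disjoint (P.S j) S) ∧ S ⊆ P.S i ∧ X.card ≤ 3 * (S ∩ X).card ∧
          3 * (S ∩ X).card ≤ 2 * X.card := by
        have hsm' : ∀ j ∈ P.L i, 3 * (P.S j ∩ X).card ≤ 2 * X.card := fun j hj => by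
          have := hsm j hj
          unfold Circuit.Large at this
          omega
        have hsub : ∀ t ⊆ P.L i, t.biUnion P.S ⊆ P.S i := fun t ht =>
          biUnion_subset.2 fun j hj => (P.input i j (ht hj)).2
        rcases DEC_split P.S X (P.L i) hsm' with ⟨t, ht, h1, h2⟩ | h1 | h1
        · refine ⟨t, t.biUnion P.S, ht, fun j hj => subset_biUnion_of_mem P.S hj, ?_,
            hsub t ht, h1, h2⟩
          intro j hj
          obtain ⟨hj1, hj2⟩ := mem_sdiff.1 hj
          rw [disjoint_biUnion_right]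
          intro k hkt
          exact P.disj i hL' hk j hj1 k (ht hkt) (fun h => hj2 (h ▸ hkt))
        · obtain ⟨S, hS1, hS2, hS3, hS4⟩ := dec_between (hsub (P.L i) Subset.rfl) (by omega)
            hL' hX
          refine ⟨P.L i, S, Subset.rfl, fun j hj => (subset_biUnion_of_mem P.S hj).trans hS1, ?_,
            hS2, hS3, hS4⟩
          intro j hj
          rw [sdiff_self] at hj
          exact absurd hj (notMem_empty _)
        · rw [h1, card_empty] at hX
          omega
      obtain ⟨t, S, htL, h1, h2, h3, h4, h5⟩ := key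
      refine ⟨S, h4, h5, Or.inl ?_⟩
      have hT : (fun x => Real.nnabs (lost P x (i, none)) * b x) = fun x =>
          (∏ j ∈ t, Real.nnabs (P.f j x)) * ((∏ j ∈ P.L i \ t, Real.nnabs (P.f j x)) * b x) := by
        funext x
        rw [← mul_assoc]
        congr 1
        show Real.nnabs (P.f i x) = _
        rw [P.prod i hL' hk x, map_prod, mul_comm, Finset.prod_sdiff htL]
      rw [hT]
      refine (hBro D V _ _ S univ).1 ?_ ?_
      · exact DEC_prod fun j hj => dec_dep_mono (DEC_abs (P.dep j)) (h1 j hj)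
      · refine dec_dep_mul (DEC_prod fun j hj => ?_) ?_
        · exact dec_dep_mono (DEC_abs (P.dep j)) (subset_compl_iff_disjoint_right.2 (h2 j hj))
        · refine dec_dep_mono hb ?_
          rw [compl_subset_compl]
          exact h3
  · obtain ⟨hk, hj, hjl⟩ := hsome j rfl
    obtain ⟨S, hS1, hS2, hS3, hS4⟩ := dec_between (P.input i j hj).2
      (by unfold Circuit.Large at hjl; omega) hL' hX
    refine ⟨S, hS3, hS4, Or.inl ?_⟩
    refine (hBro D V _ _ S univ).1 ?_ ?_
    · refine DEC_abs fun x y hxy => ?_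
      show P.w i j * P.f j x = P.w i j * P.f j y
      rw [P.dep j x y fun v hv => hxy v (hS1 hv)]
    · refine dec_dep_mono hb ?_
      rw [compl_subset_compl]
      exact hS2

end

theorem thm_DEC (hE : St_EXP) (hBro : Pool.Agent.WD.St_Bro) : St_DEC := by
  classical
  intro D V _ _ _ _ X W s P r g κ K hX hκ hK hg hst
  by_cases hL : P.Large r
  · obtain ⟨d, hd1, hd2, hd3⟩ := hE D V X W s P r hL
    have hb : ∀ i, DepOn (fun x => Real.nnabs (d x i)) (P.S i)ᶜ := fun i =>
      DEC_abs fun x y hxy => hd1 i x y fun v hv => hxy v (mem_compl.2 hv)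
    have hS : ∀ p : {p // P.Place p}, ∃ S : Finset V, X.card ≤ 3 * (S ∩ X).card ∧
        3 * (S ∩ X).card ≤ 2 * X.card ∧
        (Broken (fun x => Real.nnabs (lost P x p.1) * Real.nnabs (d x p.1.1)) S ∨
          RankLe W (fun x => Real.nnabs (lost P x p.1) * Real.nnabs (d x p.1.1)) S) :=
      fun p => DEC_place hBro P hX p.1 p.2 _ (hb p.1.1)
    choose S hS using hS
    refine ⟨{p // P.Place p}, inferInstance,
      fun p x => Real.nnabs (lost P x p.1) * Real.nnabs (d x p.1.1), S, DEC_card P, ?_, ?_⟩
    · intro x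
      rw [hd3 x, NNReal.coe_sum]
      have e : ∑ p : Fin s × Option (Fin s), (if P.Place p then d x p.1 * lost P x p else 0) =
          ∑ p : {p // P.Place p}, d x p.1.1 * lost P x p.1 := by
        rw [← Finset.sum_filter]
        exact Finset.sum_subtype (univ.filter fun p => P.Place p) (fun p => by simp)
          (fun p => d x p.1 * lost P x p)
      rw [e]
      refine Finset.sum_le_sum fun p _ => ?_
      rw [NNReal.coe_mul, Real.coe_nnabs, Real.coe_nnabs, ← abs_mul, mul_comm]
      exact le_abs_self _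
    · intro p
      refine ⟨fun x => ?_, (hS p).1, (hS p).2.1, (hS p).2.2⟩
      obtain ⟨u, hu, hle⟩ := hst p.1 p.2 x
      rw [hd2 x p.1 u p.2 hu] at hle
      rw [← NNReal.coe_le_coe, NNReal.coe_mul, Real.coe_nnabs, Real.coe_nnabs, ← abs_mul,
        mul_comm (lost P x p.1)]
      refine hle.trans ?_
      rw [NNReal.coe_mul, NNReal.coe_mul, mul_assoc]
      have h1 : (1 : ℝ) ≤ κ := by exact_mod_cast hκ
      have h2 : (0 : ℝ) ≤ K * g x := by positivity
      nlinarith
  · have hpos : ∀ x, 0 ≤ P.f r x := by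
      intro x
      have h1 : (0 : ℝ) ≤ κ * P.f r x := (g x).2.trans (hg x).1
      have h2 : (0 : ℝ) < κ := lt_of_lt_of_le one_pos (by exact_mod_cast hκ)
      exact nonneg_of_mul_nonneg_right h1 h2
    obtain ⟨S, hS1, hS2, hS3, hS4⟩ := dec_between (subset_univ (P.S r))
      (by unfold Circuit.Large at hL; omega) (by rw [univ_inter]; omega) hX
    refine ⟨Unit, inferInstance, fun _ x => Real.nnabs (P.f r x), fun _ => S, ?_, ?_, ?_⟩
    · rw [Fintype.card_unit]
      unfold Circuit.size
      have := r.2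
      omega
    · intro x
      rw [Fintype.univ_unit, Finset.sum_singleton, Real.coe_nnabs]
      exact le_abs_self _
    · intro _
      refine ⟨fun x => ?_, hS3, hS4, Or.inl ?_⟩
      · rw [← NNReal.coe_le_coe, Real.coe_nnabs, abs_of_nonneg (hpos x)]
        refine (hg x).2.trans ?_
        rw [NNReal.coe_mul, NNReal.coe_mul]
        have h1 : (1 : ℝ) ≤ K := by exact_mod_cast hK
        have h2 : (0 : ℝ) ≤ κ * g x := by positivity
        nlinarith
      · have hT : (fun x => Real.nnabs (P.f r x)) = fun x => Real.nnabs (P.f r x) * 1 := by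
          funext x
          rw [mul_one]
        rw [hT]
        exact (hBro D V _ _ S univ).1 (dec_dep_mono (DEC_abs (P.dep r)) hS1)
          (dec_dep_const _ 1)

end Pool.Agent.WS
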