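import Pool.Agent.WS.St
import Pool.Agent.WD.Bas

/-!
# WS, the easy side: balanced functions are products of conditional probabilities
-/

set_option autoImplicit false

namespace Pool.Agent.WS

open Finset Pool.Agent.WD
open scoped NNReal

variable {D : Type} [Fintype D] [DecidableEq D] {n : ℕ}

/-- the sum over all variables with index at least `k` -/
private def EAS_Z (g : (Fin n → D) → ℝ≥0) (k : ℕ) (x : Fin n → D) : ℝ≥0 :=
  marg (univ.filter fun j : Fin n => k ≤ (j : ℕ)) g x

private theorem EAS_Z_eq (g : (Fin n → D) → ℝ≥0) (k : ℕ) (x : Fin n → D) :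
    EAS_Z g k x = ∑ y ∈ univ.filter (fun y : Fin n → D => ∀ j : Fin n, (j : ℕ) < k → y j = x j),
      g y := by
  unfold EAS_Z marg
  refine Finset.sum_congr ?_ fun _ _ => rfl
  ext y
  simp only [mem_filter, mem_univ, true_and, not_le]

private theorem EAS_Z_congr (g : (Fin n → D) → ℝ≥0) (k : ℕ) {x y : Fin n → D}
    (h : ∀ j : Fin n, (j : ℕ) < k → x j = y j) : EAS_Z g k x = EAS_Z g k y := by
  unfold EAS_Z
  refine marg_congr fun v hv => h v ?_
  simpa using hv

private theorem EAS_Z_zero (g : (Fin n → D) → ℝ≥0) (x : Fin n → D) :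
    EAS_Z g 0 x = ∑ y, g y := by
  rw [EAS_Z_eq]
  refine Finset.sum_congr ?_ fun _ _ => rfl
  ext y
  simp

private theorem EAS_Z_top (g : (Fin n → D) → ℝ≥0) (x : Fin n → D) :
    EAS_Z g n x = g x := by
  rw [EAS_Z_eq]
  have h1 : univ.filter (fun y : Fin n → D => ∀ j : Fin n, (j : ℕ) < n → y j = x j) = {x} := by
    ext y
    simp only [mem_filter, mem_univ, true_and, mem_singleton]
    exact ⟨fun h => funext fun j => h j j.2, fun h j _ => by rw [h]⟩
  rw [h1, Finset.sum_singleton]

private theorem EAS_Z_sum (g : (Fin n → D) → ℝ≥0) (i : Fin n) (x : Fin n → D) :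
    EAS_Z g i x = ∑ a, EAS_Z g (i + 1) (Function.update x i a) := by
  rw [EAS_Z_eq, Finset.sum_congr rfl fun a _ => EAS_Z_eq g (i + 1) (Function.update x i a),
    ← Finset.sum_fiberwise_of_maps_to (g := fun y : Fin n → D => y i) (t := univ)
      (fun y _ => mem_univ _)]
  refine Finset.sum_congr rfl fun a _ => ?_
  refine Finset.sum_congr ?_ fun _ _ => rfl
  ext y
  simp only [mem_filter, mem_univ, true_and]
  constructor
  · rintro ⟨h1, h2⟩ j hj
    by_cases hji : j = i
    · subst hji
      rw [Function.update_self, h2]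
    · rw [Function.update_of_ne hji]
      apply h1
      have : (j : ℕ) ≠ i := fun h => hji (Fin.ext h)
      omega
  · intro h
    refine ⟨fun j hj => ?_, ?_⟩
    · have h1 := h j (by omega)
      rwa [Function.update_of_ne (fun h => by rw [h] at hj; omega)] at h1
    · have h1 := h i (by omega)
      rwa [Function.update_self] at h1

private theorem EAS_next (g : (Fin n → D) → ℝ≥0) (i : Fin n) (x : Fin n → D) (a : D) :
    a ∈ next g i x ↔ EAS_Z g (i + 1) (Function.update x i a) ≠ 0 := by
  classical
  rw [EAS_Z_eq, Ne, Finset.sum_eq_zero_iff, next]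
  simp only [mem_filter, mem_univ, true_and]
  push Not
  constructor
  · rintro ⟨y, hy, h1, h2⟩
    refine ⟨y, fun j hj => ?_, hy⟩
    by_cases hji : j = i
    · subst hji
      rw [Function.update_self, h2]
    · rw [Function.update_of_ne hji]
      apply h1
      rw [Fin.lt_def]
      have : (j : ℕ) ≠ i := fun h => hji (Fin.ext h)
      omega
  · rintro ⟨y, h, hy⟩
    refine ⟨y, hy, fun j hj => ?_, ?_⟩
    · have h1 := h j (by rw [Fin.lt_def] at hj; omega)
      rwa [Function.update_of_ne (ne_of_lt hj)] at h1
    · have h1 := h i (by omega)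
      rwa [Function.update_self] at h1

private theorem EAS_four {g : (Fin n → D) → ℝ≥0} (hg : Balanced g) (i : Fin n)
    (x y : Fin n → D) (a b : D) :
    Four (EAS_Z g (i + 1) (Function.update x i a)) (EAS_Z g (i + 1) (Function.update x i b))
      (EAS_Z g (i + 1) (Function.update y i a)) (EAS_Z g (i + 1) (Function.update y i b)) := by
  have h := hg (univ.filter fun j : Fin n => (i : ℕ) + 1 ≤ (j : ℕ))
    (univ.filter fun j : Fin n => j < i) (Function.update x i a) (Function.update y i b)
  unfold Cross at h
  have e1 : marg (univ.filter fun j : Fin n => (i : ℕ) + 1 ≤ (j : ℕ)) g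
      ((univ.filter fun j : Fin n => j < i).piecewise (Function.update x i a)
        (Function.update y i b)) = EAS_Z g (i + 1) (Function.update x i b) := by
    refine EAS_Z_congr g (i + 1) fun j hj => ?_
    by_cases hji : j < i
    · rw [Finset.piecewise_eq_of_mem _ _ _ (by simpa using hji),
        Function.update_of_ne (ne_of_lt hji), Function.update_of_ne (ne_of_lt hji)]
    · have h1 : j = i := by
        rw [Fin.lt_def] at hji
        exact Fin.ext (by omega)
      subst h1
      rw [Finset.piecewise_eq_of_notMem _ _ _ (by simp), Function.update_self,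
        Function.update_self]
  have e2 : marg (univ.filter fun j : Fin n => (i : ℕ) + 1 ≤ (j : ℕ)) g
      ((univ.filter fun j : Fin n => j < i).piecewise (Function.update y i b)
        (Function.update x i a)) = EAS_Z g (i + 1) (Function.update y i a) := by
    refine EAS_Z_congr g (i + 1) fun j hj => ?_
    by_cases hji : j < i
    · rw [Finset.piecewise_eq_of_mem _ _ _ (by simpa using hji),
        Function.update_of_ne (ne_of_lt hji), Function.update_of_ne (ne_of_lt hji)]
    · have h1 : j = i := by
        rw [Fin.lt_def] at hji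
        exact Fin.ext (by omega)
      subst h1
      rw [Finset.piecewise_eq_of_notMem _ _ _ (by simp), Function.update_self,
        Function.update_self]
  rw [e1, e2] at h
  exact h

private theorem EAS_cross {g : (Fin n → D) → ℝ≥0} (hg : Balanced g) (i : Fin n)
    {x y : Fin n → D} (hxy : next g i x = next g i y) {a b : D} (ha : a ∈ next g i x)
    (hb : b ∈ next g i x) :
    EAS_Z g (i + 1) (Function.update x i a) * EAS_Z g (i + 1) (Function.update y i b) =
      EAS_Z g (i + 1) (Function.update x i b) * EAS_Z g (i + 1) (Function.update y i a) := by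
  have h := EAS_four hg i x y a b
  have n1 := (EAS_next g i x a).mp ha
  have n2 := (EAS_next g i x b).mp hb
  rcases h with h | ⟨h1, -⟩ | ⟨h1, -⟩
  · exact h
  · exact absurd h1 n1
  · exact absurd h1 n2

/-- the sets of possible values are equal or disjoint -/
private theorem EAS_sub {g : (Fin n → D) → ℝ≥0} (hg : Balanced g) (i : Fin n)
    {x y : Fin n → D} {a b : D} (ha : a ∈ next g i x) (ha' : a ∈ next g i y)
    (hb : b ∈ next g i x) : b ∈ next g i y := by
  have h := EAS_four hg i x y a b
  have n1 := (EAS_next g i x a).mp ha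
  have n2 := (EAS_next g i x b).mp hb
  have n3 := (EAS_next g i y a).mp ha'
  rw [EAS_next]
  intro h0
  rcases h with h | ⟨h1, -⟩ | ⟨h1, -⟩
  · rw [h0, mul_zero] at h
    exact mul_ne_zero n2 n3 h.symm
  · exact n1 h1
  · exact n2 h1

private theorem EAS_ratio {g : (Fin n → D) → ℝ≥0} (hg : Balanced g) (i : Fin n)
    {x y : Fin n → D} (hxy : next g i x = next g i y) (a : D) :
    EAS_Z g (i + 1) (Function.update x i a) * EAS_Z g i y =
      EAS_Z g i x * EAS_Z g (i + 1) (Function.update y i a) := by
  have hz : ∀ b, b ∉ next g i x → EAS_Z g (i + 1) (Function.update x i b) = 0 ∧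
      EAS_Z g (i + 1) (Function.update y i b) = 0 := by
    intro b hb
    constructor
    · by_contra h
      exact hb ((EAS_next g i x b).mpr h)
    · by_contra h
      apply hb
      rw [hxy]
      exact (EAS_next g i y b).mpr h
  by_cases ha : a ∈ next g i x
  · rw [EAS_Z_sum g i y, EAS_Z_sum g i x, Finset.mul_sum, Finset.sum_mul]
    refine Finset.sum_congr rfl fun b _ => ?_
    by_cases hb : b ∈ next g i x
    · exact EAS_cross hg i hxy ha hb
    · rw [(hz b hb).1, (hz b hb).2, mul_zero, zero_mul]
  · rw [(hz a ha).1, (hz a ha).2, mul_zero, zero_mul]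

open Classical in
/-- the conditional probabilities -/
private noncomputable def EAS_mu (g : (Fin n → D) → ℝ≥0) (i : Fin n) (A : Finset D) (a : D) :
    ℝ≥0 :=
  if a ∈ A then
    if h : ∃ x, next g i x = A then
      EAS_Z g (i + 1) (Function.update h.choose i a) / EAS_Z g i h.choose
    else 1 / (A.card : ℝ≥0)
  else 0

private theorem EAS_ne {g : (Fin n → D) → ℝ≥0} {i : Fin n} {x : Fin n → D} {a : D}
    (ha : a ∈ next g i x) : EAS_Z g i x ≠ 0 := by
  rw [EAS_Z_sum, Ne, Finset.sum_eq_zero_iff]
  intro h
  exact (EAS_next g i x a).mp ha (h a (mem_univ a))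

private theorem EAS_one (g : (Fin n → D) → ℝ≥0) (i : Fin n) (A : Finset D) (hA : A.Nonempty) :
    ∑ a, EAS_mu g i A a = 1 := by
  classical
  by_cases h : ∃ x, next g i x = A
  · obtain ⟨a0, ha0⟩ := hA
    have hc : next g i h.choose = A := h.choose_spec
    have h1 : ∀ a, EAS_mu g i A a =
        EAS_Z g (i + 1) (Function.update h.choose i a) / EAS_Z g i h.choose := by
      intro a
      unfold EAS_mu
      by_cases ha : a ∈ A
      · rw [if_pos ha, dif_pos h]
      · rw [if_neg ha]
        have h2 : EAS_Z g (i + 1) (Function.update h.choose i a) = 0 := by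
          by_contra h3
          apply ha
          rw [← hc]
          exact (EAS_next g i _ a).mpr h3
        rw [h2, zero_div]
    rw [Finset.sum_congr rfl fun a _ => h1 a, ← Finset.sum_div, ← EAS_Z_sum]
    apply div_self
    apply EAS_ne (a := a0)
    rw [hc]
    exact ha0
  · have h1 : ∀ a, EAS_mu g i A a = if a ∈ A then 1 / (A.card : ℝ≥0) else 0 := by
      intro a
      unfold EAS_mu
      rw [dif_neg h]
    rw [Finset.sum_congr rfl fun a _ => h1 a, Finset.sum_ite_mem, Finset.univ_inter,
      Finset.sum_const, nsmul_eq_mul, mul_one_div_cancel]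
    exact_mod_cast hA.card_pos.ne'

private theorem EAS_step {g : (Fin n → D) → ℝ≥0} (hg : Balanced g) (i : Fin n) (x : Fin n → D) :
    EAS_Z g (i + 1) x = EAS_Z g i x * EAS_mu g i (next g i x) (x i) := by
  classical
  have h : ∃ y, next g i y = next g i x := ⟨x, rfl⟩
  have hc : next g i h.choose = next g i x := h.choose_spec
  unfold EAS_mu
  by_cases ha : x i ∈ next g i x
  · rw [if_pos ha, dif_pos h]
    have h1 := EAS_ratio hg i hc.symm (x i)
    rw [Function.update_eq_self] at h1
    have h2 : EAS_Z g i h.choose ≠ 0 := by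
      apply EAS_ne (a := x i)
      rw [hc]
      exact ha
    rw [← mul_div_assoc, eq_div_iff h2, h1]
  · rw [if_neg ha, mul_zero]
    by_contra h3
    apply ha
    rw [EAS_next, Function.update_eq_self]
    exact h3

/-- [EAS] the easy side -/
theorem thm_EAS : St_EAS := by
  intro D _ _ n g hg
  refine ⟨EAS_mu g, fun i A hA => EAS_one g i A hA, ?_, ?_⟩
  · intro i A a ha
    unfold EAS_mu
    rw [if_neg ha]
  · intro x
    have key : ∀ k : ℕ, k ≤ n → EAS_Z g k x = (∑ y, g y) *
        ∏ i ∈ univ.filter (fun i : Fin n => (i : ℕ) < k), EAS_mu g i (next g i x) (x i) := by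
      intro k
      induction k with
      | zero =>
        intro _
        rw [EAS_Z_zero]
        simp
      | succ k ih =>
        intro hk
        have h1 := EAS_step hg ⟨k, hk⟩ x
        have h2 : univ.filter (fun i : Fin n => (i : ℕ) < k + 1) =
            insert (⟨k, hk⟩ : Fin n) (univ.filter (fun i : Fin n => (i : ℕ) < k)) := by
          ext j
          simp only [mem_filter, mem_univ, true_and, mem_insert, Fin.ext_iff]
          omega
        have h3 : (⟨k, hk⟩ : Fin n) ∉ univ.filter (fun i : Fin n => (i : ℕ) < k) := by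
          simp
        rw [h2, Finset.prod_insert h3]
        have h4 : EAS_Z g (k + 1) x = EAS_Z g k x *
            EAS_mu g ⟨k, hk⟩ (next g ⟨k, hk⟩ x) (x ⟨k, hk⟩) := h1
        rw [h4, ih (by omega)]
        ring
    have h1 := key n le_rfl
    rw [EAS_Z_top] at h1
    rw [h1]
    congr 1
    refine Finset.prod_congr ?_ fun _ _ => rfl
    ext i
    simp

/-- On its support a balanced function is a product of functions of one variable, the conditional
probabilities. -/
theorem thm_EAS2 {g : (Fin n → D) → ℝ≥0} (hg : Balanced g) :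
    ∃ ν : Fin n → D → ℝ≥0, ∀ x, g x ≠ 0 →
      g x = (∑ y, g y) * ∏ i, ν i (x i) ∧ ∀ i, ∑ a ∈ next g i x, ν i a = 1 := by
  classical
  obtain ⟨μ, h1, h2, h3⟩ := thm_EAS D n g hg
  have hd : ∀ (i : Fin n) (x y : Fin n → D) (a : D), a ∈ next g i x → a ∈ next g i y →
      next g i x = next g i y := fun i x y a ha ha' =>
    Finset.Subset.antisymm (fun b hb => EAS_sub hg i ha ha' hb)
      (fun b hb => EAS_sub hg i ha' ha hb)
  refine ⟨fun i a => if h : ∃ x, a ∈ next g i x then μ i (next g i h.choose) a else 0,
    fun x hx => ?_⟩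
  have hmem : ∀ i, x i ∈ next g i x := fun i => by
    unfold next
    rw [mem_filter]
    exact ⟨mem_univ _, x, hx, fun _ _ => rfl, rfl⟩
  have hν : ∀ (i : Fin n) (a : D), a ∈ next g i x →
      (if h : ∃ x, a ∈ next g i x then μ i (next g i h.choose) a else 0) =
        μ i (next g i x) a := by
    intro i a ha
    have h : ∃ x, a ∈ next g i x := ⟨x, ha⟩
    rw [dif_pos h, hd i _ x a h.choose_spec ha]
  constructor
  · rw [h3 x]
    congr 1
    exact Finset.prod_congr rfl fun i _ => (hν i (x i) (hmem i)).symm
  · intro i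
    rw [Finset.sum_congr rfl fun a ha => hν i a ha, ← h1 i (next g i x) ⟨x i, hmem i⟩]
    exact Finset.sum_subset (Finset.subset_univ _) fun a _ ha => h2 i _ a ha

end Pool.Agent.WS
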