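import Pool.Agent.WS.Model

/-!
# WS, module EXC: the two sides exclude each other
-/

set_option autoImplicit false

namespace Pool.Agent.WS

open Finset Pool.Agent.WD
open scoped NNReal

variable {D : Type} [Fintype D] [DecidableEq D]

/-- the circuit with one gate, which is a leaf -/
def leafCircuit {V : Type} [Fintype V] [DecidableEq V] (X : Finset V) (g : (V → D) → ℝ≥0)
    (hg : Tame g) : Circuit D X 0 1 where
  kind := fun _ => .leaf
  S := fun _ => univ
  f := fun _ x => g x
  L := fun _ => ∅
  w := fun _ _ => 0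
  dep := fun _ x y h => by rw [show x = y from funext fun v => h v (mem_univ v)]
  input := fun _ j hj => absurd hj (notMem_empty j)
  leaf := fun _ _ _ => ⟨g, Or.inl hg, fun _ => rfl⟩
  prod := fun _ _ h => by cases h
  disj := fun _ _ h => by cases h
  sum := fun _ _ h => by cases h

theorem leafCircuit_stable {V : Type} [Fintype V] [DecidableEq V] (X : Finset V)
    (g : (V → D) → ℝ≥0) (hg : Tame g) : (leafCircuit X g hg).Stable g 0 1 := by
  rintro ⟨i, o⟩ ⟨hL, hn, hs⟩ x
  have ho : o = none := by
    rcases o with _ | j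
    · rfl
    · have := (hs j rfl).1
      cases this
  subst ho
  have hi : i = 0 := Subsingleton.elim _ _
  subst hi
  refine ⟨fun _ => 0, fun i => ⟨fun _ => rfl, fun h => absurd ?_ h⟩, ?_⟩
  · rw [Subsingleton.elim i 0]
  · show |(g x : ℝ) - 0| ≤ 1 * g x
    rw [sub_zero, one_mul, NNReal.abs_eq]

/-- nothing is eliminated -/
theorem elim_empty {V : Type} [Fintype V] [DecidableEq V] (π : V → D) (g : (V → D) → ℝ≥0) :
    elim ∅ ∅ π g = g := by
  funext x
  unfold elim marg
  have h1 : (univ.filter fun y : V → D => ∀ v, v ∉ (∅ : Finset V) →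
      y v = (∅ : Finset V).piecewise π x v) = {x} := by
    ext y
    simp only [mem_filter, mem_univ, true_and, mem_singleton, notMem_empty,
      not_false_eq_true, forall_const, Finset.piecewise_empty]
    exact ⟨fun h => funext h, fun h v => by rw [h]⟩
  rw [h1, Finset.sum_singleton]

theorem not_easy_hard (F : Set (WFun D)) (hE : Easy F) (hH : Hard F) : False := by
  obtain ⟨c, hc, C, h⟩ := hH
  obtain ⟨n, hn⟩ := exists_nat_gt (1 / c)
  obtain ⟨I, X, R₀, π, hI, -, -, -, -, h6⟩ := h n
  have hB : Balanced (wt I) := (hE.2 n I hI).1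
  have hT : Tame (wt I) := fun R u v x y _ => hB R {u} x y
  have he : elim ∅ ∅ π (wt I) = wt I := elim_empty π (wt I)
  have h7 := (h6 ∅ ∅ (empty_subset _) (disjoint_empty_left _) 0 1 (leafCircuit X (wt I) hT) 0 1 1
    le_rfl le_rfl (fun x => ?_)).1 ?_
  · have h8 : (leafCircuit X (wt I) hT).size = 1 := by
      unfold Circuit.size leafCircuit
      simp
    rw [h8] at h7
    have h9 : (2 : ℝ) ^ (c * n) ≤ 2 := by
      simpa using h7
    have h10 : 1 < c * n := by
      rw [div_lt_iff₀ hc] at hn
      linarith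
    have h11 : (2 : ℝ) ^ (1 : ℝ) < (2 : ℝ) ^ (c * n) :=
      Real.rpow_lt_rpow_of_exponent_lt (by norm_num) h10
    rw [Real.rpow_one] at h11
    linarith
  · rw [he]
    have h12 : (leafCircuit X (wt I) hT).f 0 x = wt I x := rfl
    rw [h12]
    simp
  · rw [he]
    exact_mod_cast leafCircuit_stable X (wt I) hT

end Pool.Agent.WS
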