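import Pool.Agent.WS.St
import Pool.Agent.VD.NMat

/-!
# WS, module EXP: the linear system and the effect of resets
-/

set_option autoImplicit false

namespace Pool.Agent.WS

open Finset Matrix Pool.Agent.WD Pool.Agent.VD
open scoped Classical NNReal

namespace Circuit

variable {D V : Type} [Fintype D] [DecidableEq D] [Fintype V] [DecidableEq V] {X : Finset V}
  {W s : ℕ} (P : Circuit D X W s)

/-- a product gate has at most one large input -/
theorem unique_large {i : Fin s} (hi : P.Large i)
    (hk : P.kind i = .prod) {j k : Fin s} (hj : j ∈ P.L i) (hk' : k ∈ P.L i)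
    (h1 : P.Large j) (h2 : P.Large k) : j = k := by
  by_contra hne
  have hd := P.disj i hi hk j hj k hk' hne
  have hd' : Disjoint (P.S j ∩ X) (P.S k ∩ X) :=
    Finset.disjoint_of_subset_left inter_subset_left
      (Finset.disjoint_of_subset_right inter_subset_left hd)
  have hc : ((P.S j ∩ X) ∪ (P.S k ∩ X)).card ≤ X.card :=
    Finset.card_le_card (Finset.union_subset inter_subset_right inter_subset_right)
  rw [Finset.card_union_of_disjoint hd'] at hc
  unfold Large at h1 h2
  omega

/-- the matrix of the linear system -/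
noncomputable def H (x : V → D) : Matrix (Fin s) (Fin s) ℝ := fun i k =>
  if P.Large i ∧ P.Large k ∧ k ∈ P.L i then
    match P.kind i with
    | .leaf => 0
    | .prod => ∏ j ∈ (P.L i).erase k, P.f j x
    | .sum => P.w i k
  else 0

/-- the constants of the linear system -/
noncomputable def cc (x : V → D) (i : Fin s) : ℝ :=
  if P.Large i then
    match P.kind i with
    | .leaf => P.f i x
    | .prod => if ∃ j ∈ P.L i, P.Large j then 0 else P.f i x
    | .sum => ∑ j ∈ P.L i, if P.Large j then 0 else P.w i j * P.f j x
  else P.f i x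

theorem H_ne (x : V → D) {i k : Fin s} (h : P.H x i k ≠ 0) :
    P.Large i ∧ P.Large k ∧ k ∈ P.L i := by
  unfold H at h
  by_contra h1
  rw [if_neg h1] at h
  exact h rfl

theorem H_lt (x : V → D) {i k : Fin s} (h : P.H x i k ≠ 0) : k < i ∧ P.S k ⊆ P.S i := by
  obtain ⟨-, -, h1⟩ := P.H_ne x h
  exact P.input i k h1

theorem H_tri (x : V → D) : ∀ i k, P.H x i k ≠ 0 → k < i := fun _ _ h => (P.H_lt x h).1

theorem H_leaf (x : V → D) {i : Fin s} (hk : ¬ P.Large i ∨ P.kind i = .leaf) (k : Fin s) :
    P.H x i k = 0 := by
  unfold H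
  by_cases h : P.Large i ∧ P.Large k ∧ k ∈ P.L i
  · rw [if_pos h, hk.resolve_left (not_not.2 h.1)]
  · rw [if_neg h]

theorem H_dep {x y : V → D} {i k : Fin s} (h : ∀ v, v ∉ P.S k → x v = y v) :
    P.H x i k = P.H y i k := by
  unfold H
  by_cases h1 : P.Large i ∧ P.Large k ∧ k ∈ P.L i
  · rw [if_pos h1, if_pos h1]
    rcases hk : P.kind i with _ | _ | _
    · rfl
    · simp only
      refine Finset.prod_congr rfl fun j hj => ?_
      rw [Finset.mem_erase] at hj
      refine P.dep j x y fun v hv => h v ?_
      exact Finset.disjoint_left.1 (P.disj i h1.1 hk j hj.2 k h1.2.2 hj.1) hv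
    · rfl
  · rw [if_neg h1, if_neg h1]

/-- the influences -/
noncomputable def Inf (x : V → D) : Matrix (Fin s) (Fin s) ℝ := (1 - P.H x)⁻¹

theorem D_fwd (x : V → D) (i j : Fin s) :
    P.Inf x i j = (if i = j then 1 else 0) + ∑ k, P.H x i k * P.Inf x k j :=
  tri_fwd _ (P.H_tri x) i j

theorem D_bwd (x : V → D) (i j : Fin s) :
    P.Inf x i j = (if i = j then 1 else 0) + ∑ k, P.Inf x i k * P.H x k j :=
  tri_bwd _ (P.H_tri x) i j

theorem D_small (x : V → D) {r i : Fin s} (hi : ¬ P.Large i) (hne : r ≠ i) :
    P.Inf x r i = 0 := by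
  rw [P.D_bwd, if_neg hne, zero_add]
  refine Finset.sum_eq_zero fun k _ => ?_
  have : P.H x k i = 0 := by
    by_contra h
    exact hi (P.H_ne x h).2.1
  rw [this, mul_zero]

theorem D_dep (i : Fin s) : ∀ j : Fin s,
    (∀ x, P.Inf x i j ≠ 0 → P.S j ⊆ P.S i) ∧
    ∀ x y : V → D, (∀ v, v ∉ P.S j → x v = y v) → P.Inf x i j = P.Inf y i j := by
  induction i using WellFoundedLT.induction with
  | ind i ih =>
    intro j
    constructor
    · intro x hx
      rw [P.D_fwd] at hx
      by_cases hij : i = j
      · rw [hij]
      · rw [if_neg hij, zero_add] at hx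
        obtain ⟨k, -, hk⟩ := Finset.exists_ne_zero_of_sum_ne_zero hx
        obtain ⟨h3, h4⟩ := P.H_lt x (left_ne_zero_of_mul hk)
        exact ((ih k h3 j).1 x (right_ne_zero_of_mul hk)).trans h4
    · intro x y h
      rw [P.D_fwd x, P.D_fwd y]
      congr 1
      refine Finset.sum_congr rfl fun k _ => ?_
      by_cases hki : P.H x i k = 0 ∧ P.H y i k = 0
      · rw [hki.1, hki.2, zero_mul, zero_mul]
      · have hlt : k < i := by
          rw [not_and_or] at hki
          rcases hki with h1 | h1
          · exact P.H_tri x _ _ h1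
          · exact P.H_tri y _ _ h1
        rw [(ih k hlt j).2 x y h]
        by_cases h0 : P.Inf y k j = 0
        · rw [h0, mul_zero, mul_zero]
        · have hS := (ih k hlt j).1 y h0
          have : P.H x i k = P.H y i k := P.H_dep fun v hv => h v fun hv' => hv (hS hv')
          rw [this]

/-- evaluation of a large product gate -/
theorem prod_eval (x : V → D) (U : Fin s → ℝ)
    (hU : ∀ j, ¬ P.Large j → U j = P.f j x) {i : Fin s} (hi : P.Large i)
    (hk : P.kind i = .prod) :
    ∏ j ∈ P.L i, U j = P.cc x i + ∑ k, P.H x i k * U k := by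
  have hcc : P.cc x i = if ∃ j ∈ P.L i, P.Large j then 0 else P.f i x := by
    unfold cc
    rw [if_pos hi, hk]
  have hH : ∀ k, P.Large k → k ∈ P.L i → P.H x i k = ∏ j ∈ (P.L i).erase k, P.f j x := by
    intro k h1 h2
    unfold H
    rw [if_pos ⟨hi, h1, h2⟩, hk]
  by_cases hex : ∃ j ∈ P.L i, P.Large j
  · obtain ⟨j₀, hj₀, hL₀⟩ := hex
    have hoth : ∀ j ∈ (P.L i).erase j₀, ¬ P.Large j := by
      intro j hj hL
      rw [Finset.mem_erase] at hj
      exact hj.1 (P.unique_large hi hk hj.2 hj₀ hL hL₀)
    rw [hcc, if_pos ⟨j₀, hj₀, hL₀⟩, zero_add, Finset.sum_eq_single j₀, hH j₀ hL₀ hj₀,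
      ← Finset.mul_prod_erase _ _ hj₀, Finset.prod_congr rfl fun j hj => hU j (hoth j hj), mul_comm]
    · intro k _ hne
      have : P.H x i k = 0 := by
        by_contra h
        obtain ⟨-, h1, h2⟩ := P.H_ne x h
        exact hne (P.unique_large hi hk h2 hj₀ h1 hL₀)
      rw [this, zero_mul]
    · intro h
      exact absurd (Finset.mem_univ _) h
  · rw [hcc, if_neg hex, P.prod i hi hk x, Finset.sum_eq_zero, add_zero]
    · push Not at hex
      exact Finset.prod_congr rfl fun j hj => hU j (hex j hj)
    · intro k _
      have : P.H x i k = 0 := by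
        by_contra h
        obtain ⟨-, h1, h2⟩ := P.H_ne x h
        exact hex ⟨k, h2, h1⟩
      rw [this, zero_mul]

/-- the row of a large sum gate -/
theorem sum_row (x : V → D) (U : Fin s → ℝ) {i : Fin s} (hi : P.Large i)
    (hk : P.kind i = .sum) :
    ∑ k, P.H x i k * U k = ∑ j ∈ P.L i, if P.Large j then P.w i j * U j else 0 := by
  have h1 : ∀ k, P.H x i k * U k =
      if k ∈ P.L i then (if P.Large k then P.w i k * U k else 0) else 0 := by
    intro k
    by_cases h2 : k ∈ P.L i
    · by_cases h3 : P.Large k
      · have : P.H x i k = P.w i k := by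
          unfold H
          rw [if_pos ⟨hi, h3, h2⟩, hk]
        rw [this, if_pos h2, if_pos h3]
      · have : P.H x i k = 0 := by
          by_contra h
          exact h3 (P.H_ne x h).2.1
        rw [this, zero_mul, if_pos h2, if_neg h3]
    · have : P.H x i k = 0 := by
        by_contra h
        exact h2 (P.H_ne x h).2.2
      rw [this, zero_mul, if_neg h2]
  rw [Finset.sum_congr rfl fun k _ => h1 k, ← Finset.sum_filter, Finset.filter_mem_eq_inter,
    Finset.univ_inter]

/-- the true values satisfy the linear system -/
theorem f_sys (x : V → D) (i : Fin s) :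
    P.f i x = P.cc x i + ∑ k, P.H x i k * P.f k x := by
  by_cases hk : ¬ P.Large i ∨ P.kind i = .leaf
  · rw [Finset.sum_eq_zero fun k _ => by rw [P.H_leaf x hk, zero_mul], add_zero]
    unfold cc
    by_cases hi : P.Large i
    · rw [if_pos hi, hk.resolve_left (not_not.2 hi)]
    · rw [if_neg hi]
  · push Not at hk
    obtain ⟨hi, hk⟩ := hk
    rcases h : P.kind i with _ | _ | _
    · exact absurd h hk
    · rw [← P.prod_eval x (fun j => P.f j x) (fun _ _ => rfl) hi h]
      exact P.prod i hi h x
    · have hcc : P.cc x i = ∑ j ∈ P.L i, if P.Large j then 0 else P.w i j * P.f j x := by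
        unfold cc
        rw [if_pos hi, h]
      rw [P.sum_row x (fun j => P.f j x) hi h, hcc, ← Finset.sum_add_distrib, P.sum i hi h x]
      refine Finset.sum_congr rfl fun j _ => ?_
      by_cases hj : P.Large j
      · rw [if_pos hj, if_pos hj, zero_add]
      · rw [if_neg hj, if_neg hj, add_zero]

theorem expand (x : V → D) (r : Fin s) :
    P.f r x = ∑ i, P.Inf x r i * P.cc x i :=
  tri_solve _ (P.H_tri x) (fun j => P.f j x) (fun j => P.cc x j) (fun i => P.f_sys x i) r

/-! ### resets -/

variable {P}

/-- gates before the place are not affected -/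
theorem Reset.lt {x : V → D} {p : Fin s × Option (Fin s)} {u : Fin s → ℝ} (hp : P.Large p.1)
    (hu : P.Reset x p u) : ∀ i, (i < p.1 ∨ ¬ P.Large i) → u i = P.f i x := by
  intro i
  induction i using WellFoundedLT.induction with
  | ind i ih =>
    intro hi
    have hne : ∀ o, p ≠ (i, o) := by
      intro o e
      rcases hi with h | h
      · rw [e] at h
        exact absurd h (lt_irrefl _)
      · rw [e] at hp
        exact h hp
    obtain ⟨h1, h2, h3⟩ := (hu i).2 (hne none)
    by_cases hk : ¬ P.Large i ∨ P.kind i = .leaf
    · exact h1 hk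
    · push Not at hk
      obtain ⟨hL, hk⟩ := hk
      have hlt : i < p.1 := hi.resolve_right (not_not.2 hL)
      rcases h : P.kind i with _ | _ | _
      · exact absurd h hk
      · rw [h2 hL h, P.prod i hL h x]
        refine Finset.prod_congr rfl fun j hj => ?_
        have hji := (P.input i j hj).1
        exact ih j hji (Or.inl (hji.trans hlt))
      · rw [h3 hL h, P.sum i hL h x]
        refine Finset.sum_congr rfl fun j hj => ?_
        have hji := (P.input i j hj).1
        rw [if_neg (hne (some j)), ih j hji (Or.inl (hji.trans hlt))]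

/-- the effect of a reset -/
theorem Reset.eff {x : V → D} {p : Fin s × Option (Fin s)}
    {u : Fin s → ℝ} (hp : P.Place p) (hu : P.Reset x p u) (r : Fin s) :
    P.f r x - u r = P.Inf x r p.1 * lost P x p := by
  have hsm : ∀ j, ¬ P.Large j → u j = P.f j x := fun j hj => hu.lt hp.1 j (Or.inr hj)
  have h := tri_solve _ (P.H_tri x) (fun j => P.f j x - u j)
    (fun j => if j = p.1 then lost P x p else 0) (fun i => ?_) r
  · rw [h]
    simp only [mul_ite, mul_zero, Finset.sum_ite_eq', Finset.mem_univ, if_true]
    rfl
  · show P.f i x - u i = (if i = p.1 then lost P x p else 0) + ∑ k, P.H x i k * (P.f k x - u k)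
    by_cases hip : i = p.1
    · -- the place
      rw [if_pos hip]
      have h0 : ∑ k, P.H x i k * (P.f k x - u k) = 0 := by
        refine Finset.sum_eq_zero fun k _ => ?_
        by_cases hH : P.H x i k = 0
        · rw [hH, zero_mul]
        · have hk := P.H_tri x _ _ hH
          rw [hu.lt hp.1 k (Or.inl (by rw [← hip]; exact hk)), sub_self, mul_zero]
      rw [h0, add_zero]
      rcases p with ⟨i', o⟩
      simp only at hip
      subst hip
      rcases o with _ | j
      · rw [(hu i).1 rfl, sub_zero]
        rfl
      · obtain ⟨hk, hj, -⟩ := hp.2.2 j rfl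
        simp only at hk hj
        have h3 := ((hu i).2 (by simp)).2.2 hp.1 hk
        rw [h3, P.sum i hp.1 hk x, ← Finset.sum_sub_distrib]
        show _ = P.w i j * P.f j x
        rw [Finset.sum_eq_single_of_mem j hj]
        · rw [if_pos rfl, sub_zero]
        · intro k hk' hne
          rw [if_neg (by
            intro e
            exact hne (Option.some.inj (Prod.ext_iff.1 e).2).symm)]
          rw [hu.lt hp.1 k (Or.inl (P.input i k hk').1), sub_self]
    · rw [if_neg hip, zero_add]
      have hne : ∀ o, p ≠ (i, o) := fun o e => hip (by rw [e])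
      obtain ⟨h1, h2, h3⟩ := (hu i).2 (hne none)
      by_cases hk : ¬ P.Large i ∨ P.kind i = .leaf
      · rw [h1 hk, sub_self, Finset.sum_eq_zero fun k _ => by rw [P.H_leaf x hk, zero_mul]]
      · push Not at hk
        obtain ⟨hL, hk⟩ := hk
        rcases h : P.kind i with _ | _ | _
        · exact absurd h hk
        · have e1 := P.prod_eval x u hsm hL h
          have e2 := P.f_sys x i
          have e3 : ∑ k, P.H x i k * (P.f k x - u k) =
              ∑ k, P.H x i k * P.f k x - ∑ k, P.H x i k * u k := by
            rw [← Finset.sum_sub_distrib]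
            exact Finset.sum_congr rfl fun k _ => by ring
          rw [h2 hL h, e3]
          linarith
        · have e1 := P.sum_row x (fun k => P.f k x - u k) hL h
          rw [e1, h3 hL h, P.sum i hL h x, ← Finset.sum_sub_distrib]
          refine Finset.sum_congr rfl fun j _ => ?_
          rw [if_neg (hne (some j))]
          by_cases hj : P.Large j
          · rw [if_pos hj]
            ring
          · rw [if_neg hj, hsm j hj, sub_self]

end Circuit

theorem thm_EXP : St_EXP := by
  intro D V _ _ _ _ X W s P r hr
  refine ⟨fun x i => P.Inf x r i, fun i x y h => (P.D_dep r i).2 x y h,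
    fun x p u hp hu => hu.eff hp r, fun x => ?_⟩
  rw [P.expand x r, Fintype.sum_prod_type]
  refine Finset.sum_congr rfl fun i _ => ?_
  rw [Fintype.sum_option]
  by_cases hi : P.Large i
  · rcases hk : P.kind i with _ | _ | _
    · have hcc : P.cc x i = P.f i x := by
        unfold Circuit.cc
        rw [if_pos hi, hk]
      have h1 : P.Place (i, none) := ⟨hi, fun _ => Or.inl hk, fun j hj => by simp at hj⟩
      rw [if_pos h1, Finset.sum_eq_zero, add_zero, hcc]
      · rfl
      · intro j _
        rw [if_neg]
        rintro ⟨-, -, h⟩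
        have := (h j rfl).1
        simp only [hk] at this
        cases this
    · have hcc : P.cc x i = if ∃ j ∈ P.L i, P.Large j then 0 else P.f i x := by
        unfold Circuit.cc
        rw [if_pos hi, hk]
      rw [hcc, Finset.sum_eq_zero, add_zero]
      · by_cases hex : ∃ j ∈ P.L i, P.Large j
        · rw [if_pos hex, mul_zero, if_neg]
          rintro ⟨-, h, -⟩
          rcases h rfl with h | ⟨-, h⟩
          · simp only [hk] at h
            cases h
          · obtain ⟨j, hj, hL⟩ := hex
            exact h j hj hL
        · rw [if_neg hex]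
          have h1 : P.Place (i, none) := by
            refine ⟨hi, fun _ => Or.inr ⟨hk, fun j hj hL => hex ⟨j, hj, hL⟩⟩, fun j hj => by simp at hj⟩
          rw [if_pos h1]
          rfl
      · intro j _
        rw [if_neg]
        rintro ⟨-, -, h⟩
        have := (h j rfl).1
        simp only [hk] at this
        cases this
    · have hcc : P.cc x i = ∑ j ∈ P.L i, if P.Large j then 0 else P.w i j * P.f j x := by
        unfold Circuit.cc
        rw [if_pos hi, hk]
      have h0 : ¬ P.Place (i, none) := by
        rintro ⟨-, h, -⟩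
        rcases h rfl with h | ⟨h, -⟩
        · simp only [hk] at h
          cases h
        · simp only [hk] at h
          cases h
      rw [hcc, if_neg h0, zero_add, Finset.mul_sum, ← Finset.sum_subset (Finset.subset_univ (P.L i))]
      · refine Finset.sum_congr rfl fun j hj => ?_
        by_cases hL : P.Large j
        · rw [if_pos hL, mul_zero, if_neg]
          rintro ⟨-, -, h⟩
          exact (h j rfl).2.2 hL
        · rw [if_neg hL, if_pos]
          · rfl
          · refine ⟨hi, fun h => by simp at h, fun k hk' => ?_⟩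
            obtain rfl : j = k := Option.some.inj hk'
            exact ⟨hk, hj, hL⟩
      · intro j _ hj
        rw [if_neg]
        rintro ⟨-, -, h⟩
        exact hj (h j rfl).2.1
  · have hne : r ≠ i := fun e => hi (by rw [← e]; exact hr)
    rw [P.D_small x hi hne, zero_mul, if_neg (fun h => hi h.1), zero_add, Finset.sum_eq_zero]
    intro j _
    rw [if_neg (fun h => hi h.1)]

end Pool.Agent.WS
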