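import Pool.Agent.WS.St
import Pool.Agent.WE.Hard3

/-!
# WS, module HRD: the hard side
-/

set_option autoImplicit false

namespace Pool.Agent.WS

open Finset Pool.Agent.WD
open scoped NNReal

/-- iterated marginals -/
theorem marg_marg {D V : Type} [Fintype D] [DecidableEq D] [Fintype V] [DecidableEq V]
    {A B : Finset V} (hAB : Disjoint A B) (g : (V → D) → ℝ≥0) (x : V → D) :
    marg A (marg B g) x = marg (A ∪ B) g x := by
  unfold marg
  rw [Finset.sum_sigma']
  refine Finset.sum_bij' (fun p _ => p.2) (fun z _ => ⟨A.piecewise z x, z⟩) ?_ ?_ ?_ ?_ ?_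
  · rintro ⟨y, z⟩ hp
    simp only [mem_sigma, mem_filter, mem_univ, true_and] at hp ⊢
    intro v hv
    rw [mem_union, not_or] at hv
    rw [hp.2 v hv.2, hp.1 v hv.1]
  · intro z hz
    simp only [mem_sigma, mem_filter, mem_univ, true_and] at hz ⊢
    refine ⟨fun v hv => Finset.piecewise_eq_of_notMem _ _ _ hv, fun v hv => ?_⟩
    by_cases hA : v ∈ A
    · rw [Finset.piecewise_eq_of_mem _ _ _ hA]
    · rw [Finset.piecewise_eq_of_notMem _ _ _ hA]
      exact hz v fun h => (mem_union.1 h).elim hA hv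
  · rintro ⟨y, z⟩ hp
    simp only [mem_sigma, mem_filter, mem_univ, true_and] at hp
    have : A.piecewise z x = y := by
      funext v
      by_cases hA : v ∈ A
      · rw [Finset.piecewise_eq_of_mem _ _ _ hA]
        exact hp.2 v fun h => Finset.disjoint_left.1 hAB hA h
      · rw [Finset.piecewise_eq_of_notMem _ _ _ hA]
        exact (hp.1 v hA).symm
    simp only [this]
  · intro z _
    rfl
  · intro p _
    rfl

/-- fixing variables does not change the marginal at an assignment which agrees with `π` -/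
theorem marg_elim {D V : Type} [Fintype D] [DecidableEq D] [Fintype V] [DecidableEq V]
    {R' R Y : Finset V} {π : V → D} (hY : Disjoint Y R') (g : (V → D) → ℝ≥0) (x : V → D)
    (hx : ∀ v ∈ Y, x v = π v) : marg R' (elim R Y π g) x = marg R' (marg R g) x := by
  unfold elim
  rw [marg, marg]
  refine Finset.sum_congr rfl fun y hy => ?_
  congr 1
  funext v
  by_cases hv : v ∈ Y
  · rw [Finset.piecewise_eq_of_mem _ _ _ hv, ← hx v hv]
    exact ((mem_filter.1 hy).2 v (Finset.disjoint_left.1 hY hv)).symm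
  · rw [Finset.piecewise_eq_of_notMem _ _ _ hv]

theorem thm_HRD (hDEC : St_DEC) (hCOR : St_COR) (hNet : St_Net2) (hGra : St_Gra)
    (hPatM : St_PatM) (hIns : St_Ins) : St_HRD := by
  classical
  intro D _ _ F hF
  unfold AllTame at hF
  push Not at hF
  obtain ⟨n₀, I₀, hI₀, hI₀t⟩ := hF
  obtain ⟨R₀, u₀, v₀, π, a, a', b, b', huv, hu, hv, hFour⟩ := not_tame hI₀t
  set M : D → D → ℝ≥0 := fun c d =>
    marg R₀ (wt I₀) (Function.update (Function.update π u₀ c) v₀ d) with hM
  obtain ⟨Δ, m₀, hG⟩ := hGra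
  obtain ⟨η, Kc, hη0, hη1, hKc, hN⟩ := hNet D M ⟨a, a', b, b', hFour⟩ Δ
  set A : ℕ := 2 + Δ * n₀ with hA
  set B : ℕ := (2 * Δ + 2) * ((Δ + 1) * Δ) with hB
  have hl0 : 0 < Real.logb 2 (1 / (1 - η)) :=
    Real.logb_pos (by norm_num) (by rw [lt_div_iff₀ (by linarith)]; linarith)
  set L : ℕ := 60 * A * (B + 1) with hL
  obtain ⟨m₂, hm₂⟩ := exists_nat_ge (2 * L * Real.logb 2 Kc / Real.logb 2 (1 / (1 - η)))
  set m₁ : ℕ := max (max m₀ (30 * Δ + 30)) m₂ with hm₁
  have hA0 : 0 < A := by omega
  have hLpos : 0 < L := by positivity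
  have hm1a : m₀ ≤ m₁ := (le_max_left _ _).trans (le_max_left _ _)
  have hm1b : 30 * Δ + 30 ≤ m₁ := (le_max_right _ _).trans (le_max_left _ _)
  have hm1c : m₂ ≤ m₁ := le_max_right _ _
  have hAm : (0 : ℝ) < A * m₁ := by
    have : 0 < A * m₁ := by
      apply Nat.mul_pos hA0
      omega
    exact_mod_cast this
  have hA2 : (2 : ℝ) * A ≤ A * m₁ := by
    have : 2 * A ≤ A * m₁ := by
      rw [Nat.mul_comm]
      exact Nat.mul_le_mul_left _ (by omega)
    exact_mod_cast this
  have hA1 : (1 : ℝ) ≤ A := by exact_mod_cast hA0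
  set c : ℝ := min (Real.logb 2 (1 / (1 - η)) / (8 * L)) (1 / (A * m₁)) with hc
  have hcA : c ≤ 1 / (2 * A) := by
    refine (min_le_right _ _).trans ?_
    exact one_div_le_one_div_of_le (by linarith) hA2
  refine ⟨c, ?_, (Δ + 1) * (I₀.length + 1), ?_⟩
  · apply lt_min
    · have : (0 : ℝ) < L := by exact_mod_cast hLpos
      positivity
    · positivity
  intro n
  by_cases hn : n < A * m₁
  · -- small n
    refine ⟨[], univ, ∅, fun _ => a, ?_, ?_, ?_, ?_, ?_, ?_⟩
    · intro c hc; simp at hc
    · simp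
    · intro v; simp
    · rw [card_univ, Fintype.card_fin]
      have h1 : c ≤ 1 := hcA.trans (by
        rw [div_le_one (by linarith)]
        linarith)
      calc c * n ≤ 1 * n := by gcongr
        _ = n := one_mul _
    · exact disjoint_empty_right _
    · intro R Y _ _ W s P i q Kq hq hKq _ _
      have h1 : (2 : ℝ) ^ (c * n) ≤ (2 : ℝ) ^ (1 : ℝ) := by
        apply Real.rpow_le_rpow_of_exponent_le (by norm_num)
        calc c * n ≤
              1 / (A * m₁) * n := by gcongr; exact min_le_right _ _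
          _ ≤ 1 / (A * m₁) * (A * m₁) := by
              gcongr
              exact_mod_cast hn.le
          _ = 1 := one_div_mul_cancel hAm.ne'
      have h2 : (1 : ℝ) ≤ q := by exact_mod_cast hq
      have h2' : (1 : ℝ) ≤ Kq := by exact_mod_cast hKq
      have h3 : (1 : ℝ) ≤ P.size + W := by
        have h30 : 1 ≤ s := lt_of_le_of_lt (Nat.zero_le _) i.2
        have h31 : 1 ≤ P.size := h30.trans (Nat.le_add_right _ _)
        have h32 : (1 : ℝ) ≤ P.size := by exact_mod_cast h31
        have h33 : (0 : ℝ) ≤ W := Nat.cast_nonneg W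
        linarith
      rw [Real.rpow_one] at h1
      calc _ ≤ (2 : ℝ) := h1
        _ ≤ 2 * (q * Kq * (P.size + W)) := by
            have : (1 : ℝ) ≤ q * Kq * (P.size + W) :=
              one_le_mul_of_one_le_of_one_le (one_le_mul_of_one_le_of_one_le h2 h2') h3
            linarith
        _ = _ := by ring
  · push Not at hn
    set m : ℕ := n / A with hm
    have hmm : m₁ ≤ m := by
      rw [hm, Nat.le_div_iff_mul_le hA0]
      rw [Nat.mul_comm]; exact hn
    have hmn : m * A ≤ n := Nat.div_mul_le_self n A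
    have hnm : n ≤ 2 * A * m := by
      have h1 : n < (m + 1) * A := by
        rw [hm]
        have := Nat.lt_div_mul_add (a := n) (b := A) hA0
        calc n < n / A * A + A := this
          _ = (n / A + 1) * A := by ring
      have h2 : 1 ≤ m := by omega
      nlinarith
    obtain ⟨K, _, _, E, col, hE, ⟨v₁, hv₁⟩, hK1, hK2, hEc, hcut⟩ := hG m (by omega)
    obtain ⟨Q, hQ, hQN⟩ := hN K E col hE v₁ hv₁
    have hbip : ∀ e ∈ E, e.1 ≠ e.2 := by
      intro e he h
      obtain ⟨c1, c2⟩ := hE.bip e he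
      rw [h, c2] at c1
      exact absurd c1 (by simp)
    have hsize : Fintype.card K + E.card * n₀ ≤ n := by
      calc Fintype.card K + E.card * n₀ ≤ 2 * m + Δ * m * n₀ := by gcongr
        _ = m * A := by rw [hA]; ring
        _ ≤ n := hmn
    obtain ⟨I, hI1, hI2, hI3, κ, base, R, hR, hnet⟩ :=
      hIns D F n₀ I₀ hI₀ R₀ u₀ v₀ π huv hu hv K E Δ hE.deg hbip n hsize
    refine ⟨I, univ.map κ, R, base, hI1, ?_, ?_, ?_, ?_, ?_⟩
    · rw [hI2]
      calc E.card * I₀.length ≤ (Δ * m) * I₀.length := by gcongr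
        _ ≤ ((Δ + 1) * n) * (I₀.length + 1) := by
            have : m ≤ n := Nat.div_le_self n A
            gcongr
            · omega
            · omega
        _ = _ := by ring
    · intro v
      refine (hI3 v).trans ?_
      gcongr
      omega
    · rw [card_map, card_univ]
      have h1 : (n : ℝ) ≤ 2 * A * m := by exact_mod_cast hnm
      have h2 : (m : ℝ) ≤ Fintype.card K := by exact_mod_cast hK2
      calc c * n ≤ 1 / (2 * A) * n := by gcongr
        _ ≤ 1 / (2 * A) * (2 * A * m) := by gcongr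
        _ = m := by field_simp
        _ ≤ _ := h2
    · rw [Finset.disjoint_left]
      intro v hv
      obtain ⟨k, -, rfl⟩ := mem_map.1 hv
      exact hR k
    · intro R₁ Y hR₁ hY W s P i q Kq hq hKq hi hst
      rw [Finset.disjoint_union_right] at hY
      obtain ⟨hYX, hYR⟩ := hY
      obtain ⟨k, hk⟩ : ∃ k, k = (n + L - 1) / L := ⟨_, rfl⟩
      have hJ : ∀ S : Finset K, Fintype.card K ≤ 3 * S.card → 3 * S.card ≤ 2 * Fintype.card K →
          ∃ J, Pat E J ∧ Ind E J ∧ (∀ e ∈ J, e.1 ≠ v₁ ∧ e.2 ≠ v₁) ∧ k ≤ J.card ∧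
            ∀ e ∈ J, (e.1 ∈ S ∧ e.2 ∉ S) ∨ (e.1 ∉ S ∧ e.2 ∈ S) := by
        intro S hS1 hS2
        obtain ⟨J, hJ0, hJ1, hJ2, hJ3, hJ4⟩ := hard3_J hPatM hE v₁ (hcut S hS1 hS2) (by omega)
        refine ⟨J, hJ0, hJ1, hJ2, ?_, hJ4⟩
        have h1 : n ≤ L * J.card := by
          calc n ≤ 2 * A * m := hnm
            _ ≤ 2 * A * (30 * B * J.card) := by gcongr
            _ = 60 * A * B * J.card := by ring
            _ ≤ 60 * A * (B + 1) * J.card := by gcongr; omega
        rw [hk]
        have h2 : (n + L - 1) / L < J.card + 1 := by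
          rw [Nat.div_lt_iff_lt_mul hLpos]
          have : (J.card + 1) * L = L * J.card + L := by ring
          rw [this]
          omega
        omega
      have hKcard : 2 ≤ (univ.map κ : Finset (Fin n)).card := by
        rw [card_map, card_univ]
        omega
      obtain ⟨ι, _, T, S, hcard, hsum, hT⟩ :=
        hDEC D (Fin n) (univ.map κ) W s P i (elim R₁ Y base (wt I)) q Kq hKcard hq hKq hi hst
      have hnet' : ∀ x : K → D,
          marg (R \ R₁) (elim R₁ Y base (wt I)) (Function.extend κ x base) = net E M x := by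
        intro x
        rw [marg_elim (Finset.disjoint_of_subset_right Finset.sdiff_subset hYR),
          marg_marg Finset.sdiff_disjoint, Finset.sdiff_union_of_subset hR₁]
        · exact hnet x
        · intro v hv
          rw [Function.extend_apply']
          rintro ⟨k, hk⟩
          exact Finset.disjoint_left.1 hYX hv (mem_map.2 ⟨k, mem_univ k, hk⟩)
      have hqK : 1 ≤ q * Kq := one_le_mul_of_one_le_of_one_le hq hKq
      have hb0 := hCOR D (Fin n) K E M col Δ v₁ η Kc Q hE hη0 hη1 hKc hQ hQN k hJ κ base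
        (R \ R₁) (fun k h => hR k (mem_sdiff.1 h).1) (elim R₁ Y base (wt I)) hnet' ι T S W (q * Kq) hqK
        (fun x => ?_) (fun t => hT t)
      · have hb : (1 : ℝ) ≤ 2 * ((q * Kq : ℝ≥0) : ℝ) ^ 2 * P.size ^ 3 *
            (Kc * (W + 1) * (1 - η) ^ k) := by
          refine hb0.trans ?_
          have h0 : (0 : ℝ) ≤ Kc * (W + 1) * (1 - η) ^ k := by
            have : (0 : ℝ) ≤ 1 - η := by linarith
            positivity
          apply mul_le_mul_of_nonneg_right _ h0
          have h1 : (Fintype.card ι : ℝ) ≤ P.size := by exact_mod_cast hcard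
          have h2 : (P.size : ℝ) ≤ (P.size : ℝ) ^ 3 := by
            have : P.size ≤ P.size ^ 3 := Nat.le_self_pow (by norm_num) _
            exact_mod_cast this
          have h3 : (0 : ℝ) ≤ ((q * Kq : ℝ≥0) : ℝ) ^ 2 := by positivity
          nlinarith [mul_nonneg h3 (Nat.cast_nonneg (α := ℝ) P.size),
            mul_le_mul_of_nonneg_left (h1.trans h2) h3]
        have h := hard3_num (c := c) (n := n) hη0 hη1 hKc hLpos (k := k) ?_ hb hqK (min_le_left _ _) ?_
        · rw [NNReal.coe_mul] at h
          calc (2 : ℝ) ^ (c * n) ≤ 2 * (q * Kq) * (P.size + W) := h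
            _ = _ := by ring
        · rw [hk]
          have := Nat.lt_div_mul_add (a := n + L - 1) (b := L) hLpos
          have e : L * ((n + L - 1) / L) = (n + L - 1) / L * L := by ring
          rw [e]
          omega
        · have h1 : m₂ ≤ n := by
            calc m₂ ≤ m₁ := hm1c
              _ ≤ A * m₁ := Nat.le_mul_of_pos_left _ hA0
              _ ≤ n := hn
          have h2 : (m₂ : ℝ) ≤ n := by exact_mod_cast h1
          have h3 := hm₂.trans h2
          rw [div_le_iff₀ hl0] at h3
          linarith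
      · have h1 := (hi x).1
        have h2 := hsum x
        have hq0 : (0 : ℝ) ≤ q := NNReal.coe_nonneg _
        have hK1 : (1 : ℝ) ≤ Kq := by exact_mod_cast hKq
        have h4 : (elim R₁ Y base (wt I) x : ℝ) ≤ ((q * Kq * ∑ t, T t x : ℝ≥0) : ℝ) := by
          rw [NNReal.coe_mul, NNReal.coe_mul]
          calc (elim R₁ Y base (wt I) x : ℝ) ≤ q * P.f i x := h1
            _ ≤ q * ((∑ t, T t x : ℝ≥0) : ℝ) := by gcongr
            _ ≤ q * Kq * ((∑ t, T t x : ℝ≥0) : ℝ) := by
              have h5 : (0 : ℝ) ≤ ((∑ t, T t x : ℝ≥0) : ℝ) := NNReal.coe_nonneg _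
              have h6 : (q : ℝ) ≤ q * Kq := le_mul_of_one_le_right hq0 hK1
              gcongr
        exact_mod_cast h4

end Pool.Agent.WS
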