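import Pool.Agent.WS.EXP

/-!
# WS, module MON: circuits with bounded cancellation are stable
-/

set_option autoImplicit false

namespace Pool.Agent.WS

open Finset Pool.Agent.WD
open scoped NNReal

namespace Circuit

variable {D V : Type} [Fintype D] [DecidableEq D] [Fintype V] [DecidableEq V] {X : Finset V}
  {W s : ℕ} (P : Circuit D X W s)

/-- every reset has a computation -/
theorem exists_reset (x : V → D) (p : Fin s × Option (Fin s)) : ∃ u, P.Reset x p u := by
  classical
  suffices h : ∀ m : ℕ, m ≤ s → ∃ u : Fin s → ℝ, ∀ i : Fin s, (i : ℕ) < m →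
      (p = (i, none) → u i = 0) ∧ (p ≠ (i, none) →
      (¬ P.Large i ∨ P.kind i = .leaf → u i = P.f i x) ∧
      (P.Large i → P.kind i = .prod → u i = ∏ j ∈ P.L i, u j) ∧
      (P.Large i → P.kind i = .sum →
        u i = ∑ j ∈ P.L i, if p = (i, some j) then 0 else P.w i j * u j)) by
    obtain ⟨u, hu⟩ := h s le_rfl
    exact ⟨u, fun i => hu i i.2⟩
  intro m
  induction m with
  | zero =>
    intro _
    exact ⟨0, fun i hi => absurd hi (Nat.not_lt_zero _)⟩
  | succ m ih =>
    intro hm
    obtain ⟨u, hu⟩ := ih (by omega)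
    set k : Fin s := ⟨m, hm⟩ with hk
    obtain ⟨a, ha⟩ : ∃ a : ℝ, (p = (k, none) → a = 0) ∧ (p ≠ (k, none) →
      (¬ P.Large k ∨ P.kind k = .leaf → a = P.f k x) ∧
      (P.Large k → P.kind k = .prod → a = ∏ j ∈ P.L k, u j) ∧
      (P.Large k → P.kind k = .sum →
        a = ∑ j ∈ P.L k, if p = (k, some j) then 0 else P.w k j * u j)) := by
      by_cases h1 : p = (k, none)
      · exact ⟨0, fun _ => rfl, fun h => absurd h1 h⟩
      by_cases h2 : ¬ P.Large k ∨ P.kind k = .leaf
      · refine ⟨P.f k x, fun h => absurd h h1, fun _ => ⟨fun _ => rfl, fun h3 h4 => ?_,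
          fun h3 h4 => ?_⟩⟩
        · rcases h2 with h | h
          · exact absurd h3 h
          · rw [h] at h4; cases h4
        · rcases h2 with h | h
          · exact absurd h3 h
          · rw [h] at h4; cases h4
      rcases h3 : P.kind k with _ | _ | _
      · exact absurd (Or.inr h3) h2
      · refine ⟨∏ j ∈ P.L k, u j, fun h => absurd h h1, fun _ => ⟨fun h => ?_, fun _ _ => rfl,
          fun _ h => ?_⟩⟩
        · rcases h with h | h
          · exact absurd (Or.inl h) h2
          · cases h
        · cases h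
      · refine ⟨∑ j ∈ P.L k, if p = (k, some j) then 0 else P.w k j * u j,
          fun h => absurd h h1, fun _ => ⟨fun h => ?_, fun _ h => ?_, fun _ _ => rfl⟩⟩
        · rcases h with h | h
          · exact absurd (Or.inl h) h2
          · cases h
        · cases h
    refine ⟨Function.update u k a, fun i hi => ?_⟩
    have hold : ∀ j : Fin s, (j : ℕ) < m → Function.update u k a j = u j := by
      intro j hj
      rw [Function.update_of_ne]
      intro h
      rw [h] at hj
      exact absurd hj (lt_irrefl _)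
    have hin : ∀ j ∈ P.L i, Function.update u k a j = u j := by
      intro j hj
      have h1 := (P.input i j hj).1
      have h2 : (j : ℕ) < i := h1
      exact hold j (by omega)
    have hprod : ∏ j ∈ P.L i, Function.update u k a j = ∏ j ∈ P.L i, u j :=
      Finset.prod_congr rfl hin
    have hsum : (∑ j ∈ P.L i, if p = (i, some j) then 0 else P.w i j * Function.update u k a j) =
        ∑ j ∈ P.L i, if p = (i, some j) then 0 else P.w i j * u j :=
      Finset.sum_congr rfl fun j hj => by rw [hin j hj]
    by_cases hik : i = k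
    · rw [hprod, hsum, hik, Function.update_self]
      exact ha
    · have h1 : (i : ℕ) < m := by
        have : (i : ℕ) ≠ m := fun h => hik (Fin.ext h)
        omega
      rw [hprod, hsum, hold i h1]
      exact hu i h1

variable {P}

/-- the relative effect of a reset -/
theorem Reset.loss {x : V → D} {p : Fin s × Option (Fin s)} {u : Fin s → ℝ} (hp : P.Place p)
    (hu : P.Reset x p u) {b : ℝ} (hb : 1 ≤ b)
    (hL : ∀ i, P.Large i → P.kind i = .sum →
      ∀ x, ∑ j ∈ P.L i, |P.w i j * P.f j x| ≤ b * |P.f i x|)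
    {h : Fin s → ℕ} (hh : ∀ i, P.Large i → ∀ j ∈ P.L i, h j ≤ h i ∧ (P.kind i = .sum → h j < h i))
    (i : Fin s) : |P.f i x - u i| ≤ b ^ h i * |P.f i x| := by
  classical
  have hsm : ∀ j, ¬ P.Large j → u j = P.f j x := by
    intro j hj
    refine ((hu j).2 ?_).1 (Or.inl hj)
    intro e
    rw [e] at hp
    exact hj hp.1
  have hb0 : ∀ m : ℕ, (1 : ℝ) ≤ b ^ m := fun m => one_le_pow₀ hb
  induction i using WellFoundedLT.induction with
  | ind i ih =>
    have hn : 0 ≤ b ^ h i * |P.f i x| := mul_nonneg (by linarith [hb0 (h i)]) (abs_nonneg _)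
    by_cases h1 : p = (i, none)
    · rw [(hu i).1 h1, sub_zero]
      exact le_mul_of_one_le_left (abs_nonneg _) (hb0 _)
    obtain ⟨h2, h3, h4⟩ := (hu i).2 h1
    by_cases hk : ¬ P.Large i ∨ P.kind i = .leaf
    · rw [h2 hk, sub_self, abs_zero]
      exact hn
    push Not at hk
    obtain ⟨hLi, hk⟩ := hk
    rcases hki : P.kind i with _ | _ | _
    · exact absurd hki hk
    · by_cases hex : ∃ j ∈ P.L i, P.Large j
      · obtain ⟨j₀, hj₀, hL₀⟩ := hex
        have hoth : ∀ j ∈ (P.L i).erase j₀, u j = P.f j x := by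
          intro j hj
          rw [Finset.mem_erase] at hj
          exact hsm j fun hLj => hj.1 (P.unique_large hLi hki hj.2 hj₀ hLj hL₀)
        have e1 : P.f i x = P.f j₀ x * ∏ j ∈ (P.L i).erase j₀, P.f j x := by
          rw [P.prod i hLi hki x]
          exact (Finset.mul_prod_erase _ (fun j => P.f j x) hj₀).symm
        have e2 : u i = u j₀ * ∏ j ∈ (P.L i).erase j₀, P.f j x := by
          rw [h3 hLi hki, ← Finset.mul_prod_erase _ _ hj₀, Finset.prod_congr rfl hoth]
        rw [e2, e1, ← sub_mul, abs_mul, abs_mul, ← mul_assoc]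
        apply mul_le_mul_of_nonneg_right _ (abs_nonneg _)
        refine (ih j₀ (P.input i j₀ hj₀).1).trans ?_
        apply mul_le_mul_of_nonneg_right _ (abs_nonneg _)
        exact pow_le_pow_right₀ hb (hh i hLi j₀ hj₀).1
      · push Not at hex
        rw [h3 hLi hki, Finset.prod_congr rfl fun j hj => hsm j (hex j hj), ← P.prod i hLi hki x,
          sub_self, abs_zero]
        exact hn
    · rw [h4 hLi hki]
      by_cases hne : (P.L i).Nonempty
      · obtain ⟨j₁, hj₁⟩ := hne
        have hpos : 1 ≤ h i := by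
          have := (hh i hLi j₁ hj₁).2 hki
          omega
        have e1 : ∀ j ∈ P.L i, |P.w i j * P.f j x - (if p = (i, some j) then 0 else P.w i j * u j)| ≤
            b ^ (h i - 1) * |P.w i j * P.f j x| := by
          intro j hj
          by_cases hp' : p = (i, some j)
          · rw [if_pos hp', sub_zero]
            exact le_mul_of_one_le_left (abs_nonneg _) (hb0 _)
          · rw [if_neg hp', ← mul_sub, abs_mul, abs_mul, mul_left_comm]
            apply mul_le_mul_of_nonneg_left _ (abs_nonneg _)
            refine (ih j (P.input i j hj).1).trans ?_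
            apply mul_le_mul_of_nonneg_right _ (abs_nonneg _)
            refine pow_le_pow_right₀ hb ?_
            have := (hh i hLi j hj).2 hki
            omega
        have e2 : P.f i x - (∑ j ∈ P.L i, if p = (i, some j) then 0 else P.w i j * u j) =
            ∑ j ∈ P.L i, (P.w i j * P.f j x - (if p = (i, some j) then 0 else P.w i j * u j)) := by
          rw [Finset.sum_sub_distrib, ← P.sum i hLi hki x]
        rw [e2]
        refine (Finset.abs_sum_le_sum_abs _ _).trans ((Finset.sum_le_sum e1).trans ?_)
        rw [← Finset.mul_sum]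
        have e3 : b ^ h i * |P.f i x| = b ^ (h i - 1) * (b * |P.f i x|) := by
          rw [← mul_assoc, ← pow_succ, Nat.sub_add_cancel hpos]
        rw [e3]
        exact mul_le_mul_of_nonneg_left (hL i hLi hki x) (by linarith [hb0 (h i - 1)])
      · rw [Finset.not_nonempty_iff_eq_empty] at hne
        rw [P.sum i hLi hki x, hne, Finset.sum_empty, Finset.sum_empty, sub_self, abs_zero,
          mul_zero]

end Circuit

/-- circuits with bounded cancellation are stable -/
theorem loss_stable {D V : Type} [Fintype D] [DecidableEq D] [Fintype V] [DecidableEq V]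
    {X : Finset V} {W s : ℕ} {P : Circuit D X W s} {g : (V → D) → ℝ≥0} {r : Fin s}
    {κ b : ℝ} (hκ : 1 ≤ κ) (hb : 1 ≤ b) {t : ℕ}
    (hr : ∀ x, g x ≤ κ * P.f r x ∧ P.f r x ≤ κ * g x) (h : P.Loss b t r) :
    P.Stable g r (κ * b ^ t) := by
  obtain ⟨hL, H, hHr, hH⟩ := h
  intro p hp x
  obtain ⟨u, hu⟩ := P.exists_reset x p
  refine ⟨u, hu, (hu.loss hp hb hL hH r).trans ?_⟩
  have h0 : 0 ≤ P.f r x := by
    have h1 : (0 : ℝ) ≤ κ * P.f r x := (g x).2.trans (hr x).1
    exact nonneg_of_mul_nonneg_right h1 (by linarith)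
  rw [abs_of_nonneg h0]
  have h1 : b ^ H r ≤ b ^ t := pow_le_pow_right₀ hb hHr
  have h2 : (0 : ℝ) ≤ b ^ t := by positivity
  calc b ^ H r * P.f r x ≤ b ^ t * P.f r x := by gcongr
    _ ≤ b ^ t * (κ * g x) := by
        apply mul_le_mul_of_nonneg_left (hr x).2 h2
    _ = _ := by ring

end Pool.Agent.WS
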