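import Pool.Agent.WS.EXP
import Pool.Agent.WS.HRD
import Pool.Agent.WS.MON
import Pool.Agent.WS.EXC
import Pool.Agent.WS.EAS
import Pool.Agent.WS.DEC
import Pool.Agent.WS.COR
import Pool.Agent.WE.Main

/-!
# WS: assembly
-/

set_option autoImplicit false

namespace Pool.Agent.WS

open Finset Pool.Agent.WD
open scoped NNReal

theorem stable_side : St_HRD :=
  thm_HRD (thm_DEC thm_EXP thm_Bro) (thm_COR thm_Lift thm_RkM) net_side thm_Gra thm_PatM thm_Ins

theorem easy_side {D : Type} [Fintype D] [DecidableEq D] {F : Set (WFun D)}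
    (h : AllTame F) : Easy F := by
  obtain ⟨p, hp, hp'⟩ := thm_Glob D F (thm_Loc D F h)
  exact ⟨⟨p, hp', hp.2⟩, fun n I hI =>
    ⟨balanced_of_allTame h n I hI, thm_EAS2 (balanced_of_allTame h n I hI)⟩⟩

theorem hard_of_not {D : Type} [Fintype D] [DecidableEq D] {F : Set (WFun D)}
    (h : ¬ AllTame F) : Hard F := by
  obtain ⟨c, hc, C, h⟩ := stable_side D F h
  refine ⟨c, hc, C, fun n => ?_⟩
  obtain ⟨I, X, R₀, π, h1, h2, h3, h4, h5, h6⟩ := h n
  refine ⟨I, X, R₀, π, h1, h2, h3, h4, h5, fun R Y hR hY W s P r κ K hκ hK hr => ⟨fun hst => ?_,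
    fun b t hb hP => ?_⟩⟩
  · exact h6 R Y hR hY W s P r κ K hκ hK hr hst
  · exact loss_stable (by exact_mod_cast hκ) hb hr hP

theorem dichotomy {D : Type} [Fintype D] [DecidableEq D] (F : Set (WFun D)) :
    (Easy F ∨ Hard F) ∧ ¬ (Easy F ∧ Hard F) := by
  refine ⟨?_, fun h => not_easy_hard F h.1 h.2⟩
  by_cases hF : AllTame F
  · exact Or.inl (easy_side hF)
  · exact Or.inr (hard_of_not hF)

end Pool.Agent.WS
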