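import Pool.Agent.WD.Bsc

/-!
# Decomposable arithmetic circuits with bounded cancellation: definitions
-/

set_option autoImplicit false

namespace Pool.Agent.WS

open Finset Pool.Agent.WD
open scoped NNReal

/-- the kinds of gates -/
inductive Kind
  | leaf
  | prod
  | sum

variable {D V : Type} [Fintype D] [DecidableEq D] [Fintype V] [DecidableEq V]

/-- Across the cut `A` the function `g` has rank at most `W`: it is a sum of `W` products of a real
function of the variables in `A` and a real function of the other variables. -/
def RkLe (W : ℕ) (g : (V → D) → ℝ≥0) (A : Finset V) : Prop :=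
  ∃ u v : Fin W → (V → D) → ℝ,
    (∀ i x y, (∀ w ∈ A, x w = y w) → u i x = u i y) ∧
    (∀ i x y, (∀ w, w ∉ A → x w = y w) → v i x = v i y) ∧
    ∀ x, (g x : ℝ) = ∑ i, u i x * v i x

/-- A decomposable arithmetic circuit of width `W` with `s` gates for functions `D ^ V → ℝ`. A gate
is large if its scope contains more than two thirds of the set `X` of variables. A gate which is not
large may be any real function of the variables in its scope. A large leaf is a non-negative function
which is tame, or has real rank at most `W` across some subset `A` of its scope which contains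
between one third and two thirds of `X`. The other large gates are products of earlier gates with
disjoint scopes, and linear combinations, with real coefficients, of earlier gates. -/
structure Circuit (D : Type) {V : Type} [Fintype D] [DecidableEq D] [Fintype V] [DecidableEq V]
    (X : Finset V) (W s : ℕ) where
  /-- the kind of a large gate -/
  kind : Fin s → Kind
  /-- the scope of a gate -/
  S : Fin s → Finset V
  /-- the function of a gate -/
  f : Fin s → (V → D) → ℝ
  /-- the inputs of a gate -/
  L : Fin s → Finset (Fin s)
  /-- the coefficients of the inputs of the sum gates -/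
  w : Fin s → Fin s → ℝ
  /-- the function of a gate depends only on its scope -/
  dep : ∀ i x y, (∀ v ∈ S i, x v = y v) → f i x = f i y
  /-- the inputs are earlier gates with smaller scopes -/
  input : ∀ i, ∀ j ∈ L i, j < i ∧ S j ⊆ S i
  /-- a large leaf is tame or has rank at most `W` across a balanced set -/
  leaf : ∀ i, 2 * X.card < 3 * (S i ∩ X).card → kind i = .leaf →
    ∃ g : (V → D) → ℝ≥0, (Tame g ∨ ∃ A ⊆ S i, X.card ≤ 3 * (A ∩ X).card ∧
      3 * (A ∩ X).card ≤ 2 * X.card ∧ RkLe W g A) ∧ ∀ x, f i x = g x
  /-- a large product gate is the product of its inputs -/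
  prod : ∀ i, 2 * X.card < 3 * (S i ∩ X).card → kind i = .prod → ∀ x, f i x = ∏ j ∈ L i, f j x
  /-- the inputs of a large product gate have disjoint scopes -/
  disj : ∀ i, 2 * X.card < 3 * (S i ∩ X).card → kind i = .prod →
    ∀ j ∈ L i, ∀ k ∈ L i, j ≠ k → Disjoint (S j) (S k)
  /-- a large sum gate is a linear combination of its inputs -/
  sum : ∀ i, 2 * X.card < 3 * (S i ∩ X).card → kind i = .sum →
    ∀ x, f i x = ∑ j ∈ L i, w i j * f j x

namespace Circuit

variable {X : Finset V} {W s : ℕ} (P : Circuit D X W s)

/-- The gate `i` is large. -/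
def Large (i : Fin s) : Prop := 2 * X.card < 3 * (P.S i ∩ X).card

/-- The size: the number of gates plus the number of inputs of gates. -/
def size : ℕ := s + ∑ i, (P.L i).card

/-- The places where small functions enter the large part of the circuit: a large leaf or a large
product of gates which are not large `(i, none)`, or a summand which is not large `(i, some j)` of a
large sum gate. -/
def Place (p : Fin s × Option (Fin s)) : Prop :=
  P.Large p.1 ∧
  (p.2 = none → P.kind p.1 = .leaf ∨ P.kind p.1 = .prod ∧ ∀ j ∈ P.L p.1, ¬ P.Large j) ∧
  (∀ j, p.2 = some j → P.kind p.1 = .sum ∧ j ∈ P.L p.1 ∧ ¬ P.Large j)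

/-- `u` is the computation of the circuit at `x` in which the value at the place `p` is reset to
`0`, and all other large gates are evaluated correctly from the values of their inputs. -/
def Reset (x : V → D) (p : Fin s × Option (Fin s)) (u : Fin s → ℝ) : Prop :=
  ∀ i, (p = (i, none) → u i = 0) ∧ (p ≠ (i, none) →
    (¬ P.Large i ∨ P.kind i = .leaf → u i = P.f i x) ∧
    (P.Large i → P.kind i = .prod → u i = ∏ j ∈ P.L i, u j) ∧
    (P.Large i → P.kind i = .sum →
      u i = ∑ j ∈ P.L i, if p = (i, some j) then 0 else P.w i j * u j))

/-- The computation of `g` at the gate `r` is `K`-stable: the reset of any place changes the value of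
the gate `r` at `x` by at most `K * g x`, for all `x`. -/
def Stable (g : (V → D) → ℝ≥0) (r : Fin s) (K : ℝ) : Prop :=
  ∀ p, P.Place p → ∀ x, ∃ u : Fin s → ℝ, P.Reset x p u ∧ |P.f r x - u r| ≤ K * g x

/-- Cancellation by a factor of at most `b` at each of at most `t` sum gates on a path: at every
large sum gate the sum of the absolute values of the summands is at most `b` times the absolute value
of the sum (so `b = 1` for circuits without negative values and coefficients), and on every path of
large gates down from `r` there are at most `t` sum gates: there is a height which decreases at these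
gates. -/
def Loss (b : ℝ) (t : ℕ) (r : Fin s) : Prop :=
  (∀ i, P.Large i → P.kind i = .sum →
    ∀ x, ∑ j ∈ P.L i, |P.w i j * P.f j x| ≤ b * |P.f i x|) ∧
  ∃ h : Fin s → ℕ, h r ≤ t ∧ ∀ i, P.Large i → ∀ j ∈ P.L i,
    h j ≤ h i ∧ (P.kind i = .sum → h j < h i)

end Circuit

/-- The function `g` in which the variables in `R` are summed out and the variables in `Y` are fixed
to their values in `π`. -/
def elim (R Y : Finset V) (π : V → D) (g : (V → D) → ℝ≥0) (x : V → D) : ℝ≥0 :=
  marg R g (Y.piecewise π x)

open Classical in
/-- The possible values of the variable `i` after the values `x j`, `j < i`: the values `y i` of the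
assignments `y` with `g y ≠ 0` and `y j = x j` for all `j < i`. -/
noncomputable def next {n : ℕ} (g : (Fin n → D) → ℝ≥0) (i : Fin n) (x : Fin n → D) : Finset D :=
  univ.filter fun a => ∃ y, g y ≠ 0 ∧ (∀ j, j < i → y j = x j) ∧ y i = a

/-- The easy side: a Mal'tsev operation preserves the supports of the functions of `F`, and every
weight function `wt I` of an instance `I` over `F` is balanced and, on its support, a product of
functions of one variable. These are the conditional probabilities: `ν i a` is the probability of
`x i = a` given the values `x j`, `j < i`. -/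
def Easy (F : Set (WFun D)) : Prop :=
  (∃ p : D → D → D → D, (∀ a b, p a b b = a ∧ p a a b = b) ∧
    ∀ f ∈ F, ∀ t₁ t₂ t₃ : Fin f.1 → D, f.2 t₁ ≠ 0 → f.2 t₂ ≠ 0 → f.2 t₃ ≠ 0 →
      f.2 (fun i => p (t₁ i) (t₂ i) (t₃ i)) ≠ 0) ∧
  ∀ (n : ℕ) (I : List (Con D (Fin n))), Over F I → Balanced (wt I) ∧
    ∃ ν : Fin n → D → ℝ≥0, ∀ x, wt I x ≠ 0 →
      wt I x = (∑ y, wt I y) * ∏ i, ν i (x i) ∧ ∀ i, ∑ a ∈ next (wt I) i x, ν i a = 1

/-- The hard side: sparse instances, in which all variables outside a set `X` of at least `c * n`
variables can be eliminated, those in `R₀` by summation and the others by fixing their values as in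
`π`, such that for the function `g` obtained by the elimination of any of these variables, the size
of every circuit which computes an approximation of `g` up to a factor `κ` in a `K`-stable way is at
least `2 ^ (c * n) / (2 * κ * K) - W`. If the cancellation at the sum gates is bounded, then the
computation is stable. -/
def Hard (F : Set (WFun D)) : Prop :=
  ∃ c : ℝ, 0 < c ∧ ∃ C : ℕ, ∀ n : ℕ, ∃ (I : List (Con D (Fin n))) (X R₀ : Finset (Fin n))
    (π : Fin n → D), Over F I ∧ I.length ≤ C * n ∧
    (∀ v, (I.filter fun c => decide (∃ i, c.sc i = v)).length ≤ C) ∧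
    c * n ≤ X.card ∧ Disjoint X R₀ ∧
    ∀ R Y : Finset (Fin n), R ⊆ R₀ → Disjoint Y (X ∪ R₀) →
    ∀ (W s : ℕ) (P : Circuit D X W s) (r : Fin s) (κ K : ℝ≥0), 1 ≤ κ → 1 ≤ K →
      (∀ x, elim R Y π (wt I) x ≤ κ * P.f r x ∧ P.f r x ≤ κ * elim R Y π (wt I) x) →
      (P.Stable (elim R Y π (wt I)) r K → (2 : ℝ) ^ (c * n) ≤ 2 * κ * K * (P.size + W)) ∧
      ∀ (b : ℝ) (t : ℕ), 1 ≤ b → P.Loss b t r →
        P.Stable (elim R Y π (wt I)) r (κ * b ^ t)

end Pool.Agent.WS
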