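import Pool.Agent.WE.St
import Pool.Agent.WS.Model

/-!
# WS, statements of the modules

Every module proves `thm_XXX : St_XXX` in `Pool/Agent/WS/XXX.lean`, namespace `Pool.Agent.WS`;
auxiliary lemmas private or prefixed.
-/

set_option autoImplicit false

namespace Pool.Agent.WS

open Finset Pool.Agent.WD
open scoped NNReal

/-- the terms of the expansion: `(i, none)` and `(i, some j)` -/
def lost {D V : Type} [Fintype D] [DecidableEq D] [Fintype V] [DecidableEq V] {X : Finset V}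
    {W s : ℕ} (P : Circuit D X W s) (x : V → D) (p : Fin s × Option (Fin s)) : ℝ :=
  match p.2 with
  | none => P.f p.1 x
  | some j => P.w p.1 j * P.f j x

/-- [EAS] The easy side: a balanced function is a product of conditional probabilities which depend
only on the set of the possible values.

Proof. `Z := ∑ x, g x`. For `k ≤ n` let `Z k x := ∑ y with (∀ j, j < k → y j = x j), g y` (`k : ℕ`).
So `Z 0 x = Z`, `Z n x = g x`, `Z (i + 1) x ≤ Z i x`, and `Z (i + 1) x ≠ 0` if and only if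
`x i ∈ next g i x` (for the `y` in the definition of `next`). `Z i x = ∑ a, Z (i + 1) (update x i a)`.
If `a, b ∈ next g i x = next g i y`, then
`Z (i+1) (update x i a) * Z (i+1) (update y i b) = Z (i+1) (update x i b) * Z (i+1) (update y i a)`:
this is `Balanced g` for `R := {j | i < j}` and the cut `A := {j | j < i}`, for the two assignments
`x' := update x i a`, `y' := update y i b`: `A.piecewise x' y'` agrees with `update x i b` on
`j ≤ i`, `A.piecewise y' x'` with `update y i a`; and `marg R g z = Z (i + 1) z`; the four entries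
are not zero, so `Four` gives the product equation. Sum over `b ∈ next g i x` (the others are zero):
`Z (i+1) (update x i a) * Z i y = Z i x * Z (i+1) (update y i a)`.
Define `μ i A a := if A = ∅ ∨ a ∉ A then 0 else if h : ∃ x, next g i x = A then
Z (i+1) (update x₀ i a) / Z i x₀ (x₀ := h.choose) else 1 / A.card`. Then
`Z (i+1) x = Z i x * μ i (next g i x) (x i)` for all `x` (if `Z i x = 0`, both sides are `0`; if
`x i ∉ next g i x`, both sides are `0`; otherwise by the last equation), and the product over all `i`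
follows by induction on `k`: `Z k x = Z * ∏ i with i < k, μ i (next g i x) (x i)`. -/
def St_EAS : Prop :=
  ∀ (D : Type) [Fintype D] [DecidableEq D] (n : ℕ) (g : (Fin n → D) → ℝ≥0), Balanced g →
    ∃ μ : Fin n → Finset D → D → ℝ≥0,
      (∀ i A, A.Nonempty → ∑ a, μ i A a = 1) ∧ (∀ i A a, a ∉ A → μ i A a = 0) ∧
      ∀ x, g x = (∑ y, g y) * ∏ i, μ i (next g i x) (x i)

open Classical in
/-- [EXP] The influences `d x i` of the gates on the gate `r`. Adapt `VD/AExp.lean`. -/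
def St_EXP : Prop :=
  ∀ (D V : Type) [Fintype D] [DecidableEq D] [Fintype V] [DecidableEq V] (X : Finset V)
    (W s : ℕ) (P : Circuit D X W s) (r : Fin s), P.Large r →
    ∃ d : (V → D) → Fin s → ℝ,
      (∀ i x y, (∀ v, v ∉ P.S i → x v = y v) → d x i = d y i) ∧
      (∀ x (p : Fin s × Option (Fin s)) (u : Fin s → ℝ), P.Place p → P.Reset x p u →
        P.f r x - u r = d x p.1 * lost P x p) ∧
      ∀ x, P.f r x = ∑ p : Fin s × Option (Fin s),
        if P.Place p then d x p.1 * lost P x p else 0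

/-- [DEC] Decomposition of an approximation of `g` which is computed in a stable way. Uses `St_EXP`
and `St_Bro` (`WD/St.lean`), `dec_between` (`WD/Dec.lean`), `dec2_tree`, `dec2_rank`
(`WE/Dec2.lean`).

Proof. (A) `P.Large r`: let `ι := {p // P.Place p}` (at most `P.size`: the second component of
`(i, some j)` is in `L i`), `T p x := |d x p.1 * lost P x p|` (as `ℝ≥0`, `Real.nnabs` or
`⟨|..|, _⟩`). The sum of the `T p x` is at least `f r x` by the expansion, and `T p x ≤ K * g x` by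
`Stable` and the formula for the resets. The balanced sets: let `i := p.1`, `b x := |d x i|`, which
depends only on the variables outside `S i`.
(1) `p = (i, some j)`: `T = (|w i j| |f j x|) * b x`; `S j` is not large, `S i` is large, so
`dec_between` gives `S j ⊆ S ⊆ S i` balanced; the first part of `St_Bro` (`Broken`).
(2) `p = (i, none)`, `kind i = prod`, no large input: `f i x = ∏ j ∈ L i, f j x`. There is
`t ⊆ L i` with a balanced set `S ⊆ S i` which contains `S j`, `j ∈ t`, and is disjoint from `S j`,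
`j ∈ L i \ t`: if some `j` has `|X| ≤ 3 |S j ∩ X|`, let `t = {j}`, `S = S j` (`3 |S j ∩ X| ≤ 2 |X|`
since `j` is not large). Otherwise let `t ⊆ L i` be maximal with `3 |B ∩ X| ≤ 2 |X|` for the union
`B` of the `S j`, `j ∈ t`; if `|X| ≤ 3 |B ∩ X|` let `S := B`; otherwise `t = L i` (adding one more
`j` gives less than `2 |X|`), and `dec_between` for `B ⊆ S i` gives `S`. Then
`T = (∏ j ∈ t, |f j x|) * ((∏ j ∈ L i \ t, |f j x|) * b x)`, first part of `St_Bro`.
(3) `p = (i, none)`, `kind i = leaf`: `f i x = g' x`, `T = g' x * b x`, `g'` depends only on `S i`.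
If `g'` is tame: `dec_between` for `∅ ⊆ S i` and the second part of `St_Bro`. If `IsNet W g'`:
`dec2_tree` and `dec2_rank` (see the proof of `dec2_S`).
(B) `r` is not large: `ι := Unit`, `T x := f r x` (it is `≥ 0` since `g x ≤ κ * f r x`),
`dec_between` for `S r ⊆ univ`, first part of `St_Bro` with the second factor `1`. -/
def St_DEC : Prop :=
  ∀ (D V : Type) [Fintype D] [DecidableEq D] [Fintype V] [DecidableEq V] (X : Finset V)
    (W s : ℕ) (P : Circuit D X W s) (r : Fin s) (g : (V → D) → ℝ≥0) (κ K : ℝ≥0),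
    2 ≤ X.card → 1 ≤ κ → 1 ≤ K →
    (∀ x, g x ≤ κ * P.f r x ∧ P.f r x ≤ κ * g x) → P.Stable g r K →
    ∃ (ι : Type) (_ : Fintype ι) (T : ι → (V → D) → ℝ≥0) (S : ι → Finset V),
      Fintype.card ι ≤ P.size ∧ (∀ x, P.f r x ≤ ((∑ t, T t x : ℝ≥0) : ℝ)) ∧
      ∀ t, (∀ x, T t x ≤ κ * K * g x) ∧
        X.card ≤ 3 * (S t ∩ X).card ∧ 3 * (S t ∩ X).card ≤ 2 * X.card ∧
        (Broken (T t) (S t) ∨ RankLe W (T t) (S t))

/-- [COR] The bound for one network: adapt `core_bound2` (`WE/Core2.lean`); the decomposition is now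
a hypothesis. -/
def St_COR : Prop :=
  ∀ (D V K : Type) [Fintype D] [DecidableEq D] [Fintype V] [DecidableEq V] [Fintype K]
    [DecidableEq K] (E : Finset (K × K)) (M : D → D → ℝ≥0) (col : K → Bool) (Δ : ℕ)
    (v₀ : K) (η Kc : ℝ) (Q : Finset (K → D)), Bip E col Δ → 0 < η → η < 1 → 1 ≤ Kc →
    0 < ∑ x ∈ Q, net E M x →
    (∀ J, Pat E J → Ind E J → (∀ e ∈ J, e.1 ≠ v₀ ∧ e.2 ≠ v₀) → ∀ S : Finset K,
        (∀ e ∈ J, (e.1 ∈ S ∧ e.2 ∉ S) ∨ (e.1 ∉ S ∧ e.2 ∈ S)) → ∀ (T : (K → D) → ℝ≥0) (W : ℕ),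
        (∀ x, T x ≤ net E M x) → ((∀ e ∈ J, PairB T e.1 e.2) ∨ RankLe W T S) →
        ((∑ x ∈ Q, T x : ℝ≥0) : ℝ) ≤ Kc * (W + 1) * (1 - η) ^ J.card *
          ((∑ x ∈ Q, net E M x : ℝ≥0) : ℝ)) →
    ∀ k : ℕ, (∀ S : Finset K, Fintype.card K ≤ 3 * S.card → 3 * S.card ≤ 2 * Fintype.card K →
      ∃ J, Pat E J ∧ Ind E J ∧ (∀ e ∈ J, e.1 ≠ v₀ ∧ e.2 ≠ v₀) ∧ k ≤ J.card ∧
        ∀ e ∈ J, (e.1 ∈ S ∧ e.2 ∉ S) ∨ (e.1 ∉ S ∧ e.2 ∈ S)) →
    ∀ (κ : K ↪ V) (base : V → D) (R : Finset V), (∀ k, κ k ∉ R) → ∀ g : (V → D) → ℝ≥0,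
    (∀ x : K → D, marg R g (Function.extend κ x base) = net E M x) →
    ∀ (ι : Type) [Fintype ι] (T : ι → (V → D) → ℝ≥0) (S : ι → Finset V) (W : ℕ) (q : ℝ≥0), 1 ≤ q →
    (∀ x, g x ≤ q * ∑ t, T t x) →
    (∀ t, (∀ x, T t x ≤ q * g x) ∧
        (univ.map κ).card ≤ 3 * (S t ∩ univ.map κ).card ∧
        3 * (S t ∩ univ.map κ).card ≤ 2 * (univ.map κ).card ∧
        (Broken (T t) (S t) ∨ RankLe W (T t) (S t))) →
    (1 : ℝ) ≤ q ^ 2 * Fintype.card ι * (Kc * (W + 1) * (1 - η) ^ k)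

/-- [HRD] The hard side. -/
def St_HRD : Prop :=
  ∀ (D : Type) [Fintype D] [DecidableEq D] (F : Set (WFun D)), ¬ AllTame F →
    ∃ c : ℝ, 0 < c ∧ ∃ C : ℕ, ∀ n : ℕ, ∃ (I : List (Con D (Fin n))) (X R₀ : Finset (Fin n))
      (π : Fin n → D), Over F I ∧ I.length ≤ C * n ∧
      (∀ v, (I.filter fun c => decide (∃ i, c.sc i = v)).length ≤ C) ∧
      c * n ≤ X.card ∧ Disjoint X R₀ ∧
      ∀ R Y : Finset (Fin n), R ⊆ R₀ → Disjoint Y (X ∪ R₀) →
      ∀ (W s : ℕ) (P : Circuit D X W s) (r : Fin s) (κ K : ℝ≥0), 1 ≤ κ → 1 ≤ K →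
        (∀ x, elim R Y π (wt I) x ≤ κ * P.f r x ∧ P.f r x ≤ κ * elim R Y π (wt I) x) →
        P.Stable (elim R Y π (wt I)) r K → (2 : ℝ) ^ (c * n) ≤ 2 * κ * K * (P.size + W)

end Pool.Agent.WS
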